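import Pool.Agent.Y531.Hlim.Eps

/-!
# Two limits: the base point is approached by generic points
-/

set_option autoImplicit false
set_option linter.unusedSectionVars false
set_option maxHeartbeats 2000000
set_option synthInstance.maxHeartbeats 200000

namespace Pool.Agent.Y531.Hlim

open Finset Pool.Agent.W942 Pool.Agent.Y531 Pool.Agent.Y531.Mul Pool.Agent.Y531.Hit

variable {a b h : ℕ}

/-- A constant is added. -/
theorem Good_add_cst {K ι U V : Type*} [Field K] [DecidableEq ι] {Φ : Frame ι U V} {T : ℕ} {X : ℝ}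
    (hT : 1 ≤ T) {f : SF ι (U → V → K)} (hf : Good Φ T X f) (c : K) :
    Good Φ T X (f + SF.cst (fun _ _ => c)) := fun B => by
  by_cases hB : B = ∅
  · subst hB
    refine ⟨?_, fun h => ?_⟩
    · rw [SF.add_def, SF.cst_apply, if_pos rfl]
      exact (hf ∅).1.add (Frame.Loc.const _ c)
    · rw [Finset.card_empty] at h
      omega
  · rw [SF.add_def, SF.cst_apply, if_neg hB, add_zero]
    exact hf B

/-- **Two limits.** -/
theorem delta_step {σ F M K : Type*} [Fintype σ] [Field F] [CharZero F] [Field M] [Field K]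
    [IsAlgClosed K] {s Δ m : ℕ} {T : ℕ → ℕ} (jK : LaurentSeries (LaurentSeries M) →+* K)
    (γ₁ : F →+* M) (ϑ₁ : σ → SF (Fin b ⊕ Fin a) (FF a b h M)) (c₁ y : σ → M)
    (hϑ₁ : ∀ j, ϑ₁ j ∅ = algebraMap M (FF a b h M) (c₁ j))
    (hy : ∀ p : MvPolynomial σ F, p ≠ 0 → p.eval₂ γ₁ y ≠ 0)
    (hT0 : 2 ≤ T 0) (hTm : Monotone T) {ϑ : ℝ} (hϑ0 : 0 < ϑ) (hTK : T (2 * Δ + 3) ≤ a + b)
    (hscale : ∀ k, k < 2 * Δ + 3 → ∃ z : ℝ, 0 ≤ z ∧ z ≤ 1 ∧ NumScale a b h (T k) z ∧
      z ^ (T (k + 1)) ≤ ϑ)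
    (hvar : ∀ j, Good (bitFrame a b h) (T 0) ϑ (ϑ₁ j))
    (C : Mul.Circuit σ (LaurentSeries F) s Δ m)
    (f₃ h₃ : MvPolynomial σ (PowerSeries F)) {R₀ : AF σ (LaurentSeries F)}
    (hC : C.Computes R₀)
    (hR : R₀ * algebraMap (MvPolynomial σ (LaurentSeries F)) _
        (MvPolynomial.map (HahnSeries.ofPowerSeries ℤ F) h₃) =
      algebraMap (MvPolynomial σ (LaurentSeries F)) _
        (MvPolynomial.map (HahnSeries.ofPowerSeries ℤ F) f₃))
    {g : MvPolynomial σ F}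
    (hg : MvPolynomial.map PowerSeries.constantCoeff f₃ =
      g * MvPolynomial.map PowerSeries.constantCoeff h₃)
    (hh : MvPolynomial.map PowerSeries.constantCoeff h₃ ≠ 0) (hgc : g.eval₂ γ₁ c₁ ≠ 0)
    (i₀ : Fin b ⊕ Fin a) :
    ∃ L₁ : SF (Fin b ⊕ Fin a) (FF a b h M),
      SF.dd i₀ (thS γ₁ ϑ₁ g) = L₁ * SF.sg i₀ (thS γ₁ ϑ₁ g) ∧
      HasRkR (L₁ (Finset.univ.erase i₀)) (2 ^ ((a + b) ^ 2) * (((Fintype.card σ : ℝ) + s + 1) *
        (cost (Fintype.card σ) s m (a + b) ^ (Δ + 1) * ϑ)) * 2 ^ (b * (a * h))) := by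
  classical
  have hg0 : g ≠ 0 := by
    rintro rfl
    apply hgc
    rw [MvPolynomial.eval₂_zero]
  let cM : FF a b h M →+* FF a b h (PowerSeries M) := SF.push PowerSeries.C
  let w₂ : σ → PowerSeries M := fun j => PowerSeries.X * PowerSeries.C (y j)
  let γ₂ : F →+* PowerSeries M := (PowerSeries.C).comp γ₁
  let ϑ₂ : σ → SF (Fin b ⊕ Fin a) (FF a b h (PowerSeries M)) := fun j =>
    SF.mapR cM (ϑ₁ j) + SF.cst (algebraMap (PowerSeries M) (FF a b h (PowerSeries M)) (w₂ j))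
  have hϑ₂ : ∀ j, ϑ₂ j ∅ = algebraMap (PowerSeries M) (FF a b h (PowerSeries M))
      (PowerSeries.C (c₁ j) + w₂ j) := by
    intro j
    show cM (ϑ₁ j ∅) + (SF.cst (algebraMap (PowerSeries M) (FF a b h (PowerSeries M)) (w₂ j)) :
      SF (Fin b ⊕ Fin a) (FF a b h (PowerSeries M))) ∅ = _
    rw [hϑ₁, SF.cst_apply, if_pos rfl]
    rfl
  let O₁ : PowerSeries M →+* LaurentSeries M := HahnSeries.ofPowerSeries ℤ M
  let oM : FF a b h (PowerSeries M) →+* FF a b h (LaurentSeries M) := SF.push O₁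
  let γ₃ : F →+* LaurentSeries M := O₁.comp γ₂
  let ϑ₃ : σ → SF (Fin b ⊕ Fin a) (FF a b h (LaurentSeries M)) := fun j => SF.mapR oM (ϑ₂ j)
  let z₃ : σ → LaurentSeries M := fun j => O₁ (PowerSeries.C (c₁ j) + w₂ j)
  have hϑ₃ : ∀ j, ϑ₃ j ∅ = algebraMap (LaurentSeries M) (FF a b h (LaurentSeries M)) (z₃ j) := by
    intro j
    show oM (ϑ₂ j ∅) = _
    rw [hϑ₂]
    rfl
  have hγ₃ : γ₃ = (HahnSeries.C : M →+* LaurentSeries M).comp γ₁ := by
    refine RingHom.ext fun r => ?_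
    exact ofPS_C (γ₁ r)
  have hz₃ : z₃ = fun j => HahnSeries.C (c₁ j) + tau M * HahnSeries.C (y j) := by
    funext j
    show O₁ (PowerSeries.C (c₁ j) + PowerSeries.X * PowerSeries.C (y j)) = _
    rw [map_add, map_mul]
    show HahnSeries.ofPowerSeries ℤ M (PowerSeries.C (c₁ j)) +
      HahnSeries.ofPowerSeries ℤ M PowerSeries.X * HahnSeries.ofPowerSeries ℤ M
        (PowerSeries.C (y j)) = _
    rw [ofPS_C, ofPS_C, ofPS_X]
  have hgen₃ : ∀ p : MvPolynomial σ F, p ≠ 0 → p.eval₂ γ₃ z₃ ≠ 0 := by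
    intro p hp
    rw [hγ₃, hz₃]
    exact eval_ne_zero_near γ₁ c₁ y hy p hp
  have hvar₃ : ∀ j, Good (bitFrame a b h) (T 0) ϑ (ϑ₃ j) := by
    intro j
    have h1 : ϑ₃ j = SF.mapR (SF.push (O₁.comp (PowerSeries.C (R := M)))) (ϑ₁ j) +
        SF.cst (fun _ _ => O₁ (w₂ j)) := by
      show SF.mapR oM (SF.mapR cM (ϑ₁ j) +
        SF.cst (algebraMap (PowerSeries M) (FF a b h (PowerSeries M)) (w₂ j))) = _
      rw [map_add, SF.mapR_cst]
      rfl
    rw [h1]
    exact Good_add_cst (by omega) (Good_push (O₁.comp (PowerSeries.C (R := M))) (hvar j))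
      (O₁ (w₂ j))
  obtain ⟨L₃, hL₃, hrk⟩ := eps_step jK γ₃ ϑ₃ z₃ hϑ₃ hgen₃ hT0 hTm hϑ0 hTK hscale hvar₃ C f₃ h₃ hC hR
    hg hh hg0 i₀
  have hP₃ : SF.mapR (SF.push O₁) (thS γ₂ ϑ₂ g) = thS γ₃ ϑ₃ g := thS_map γ₂ ϑ₂ O₁ g
  have hP₁ : SF.mapR (SF.push (PowerSeries.constantCoeff (R := M))) (thS γ₂ ϑ₂ g) =
      thS γ₁ ϑ₁ g := by
    rw [thS_map]
    have h1 : (PowerSeries.constantCoeff (R := M)).comp γ₂ = γ₁ := by
      refine RingHom.ext fun r => ?_
      show PowerSeries.constantCoeff (PowerSeries.C (γ₁ r)) = _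
      rw [PowerSeries.constantCoeff_C]
    have h2 : (fun j => SF.mapR (SF.push (PowerSeries.constantCoeff (R := M))) (ϑ₂ j)) = ϑ₁ := by
      funext j
      refine SF.ext' fun B => ?_
      funext u v
      show PowerSeries.constantCoeff (PowerSeries.C (ϑ₁ j B u v) +
        (SF.cst (algebraMap (PowerSeries M) (FF a b h (PowerSeries M)) (w₂ j)) :
          SF (Fin b ⊕ Fin a) (FF a b h (PowerSeries M))) B u v) = _
      rw [map_add, PowerSeries.constantCoeff_C, SF.cst_apply]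
      by_cases hB : B = ∅
      · rw [if_pos hB]
        show ϑ₁ j B u v + PowerSeries.constantCoeff (PowerSeries.X * PowerSeries.C (y j)) = _
        rw [map_mul, PowerSeries.constantCoeff_X, zero_mul, add_zero]
      · rw [if_neg hB]
        show ϑ₁ j B u v + PowerSeries.constantCoeff 0 = _
        rw [map_zero, add_zero]
    rw [h1, h2]
  have hu : IsUnit (thS γ₂ ϑ₂ g ∅) := by
    rw [thS_empty γ₂ ϑ₂ hϑ₂]
    refine IsUnit.map (algebraMap _ _) ?_
    rw [PowerSeries.isUnit_iff_constantCoeff, isUnit_iff_ne_zero]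
    have h1 : PowerSeries.constantCoeff (g.eval₂ γ₂ (fun j => PowerSeries.C (c₁ j) + w₂ j)) =
        g.eval₂ γ₁ c₁ := by
      rw [MvPolynomial.eval₂_comp_left (PowerSeries.constantCoeff (R := M))]
      have h2 : (PowerSeries.constantCoeff (R := M)).comp γ₂ = γ₁ := by
        refine RingHom.ext fun r => ?_
        show PowerSeries.constantCoeff (PowerSeries.C (γ₁ r)) = _
        rw [PowerSeries.constantCoeff_C]
      have h3 : (PowerSeries.constantCoeff (R := M)) ∘ (fun j => PowerSeries.C (c₁ j) + w₂ j) =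
          c₁ := by
        funext j
        show PowerSeries.constantCoeff (PowerSeries.C (c₁ j) +
          PowerSeries.X * PowerSeries.C (y j)) = _
        rw [map_add, PowerSeries.constantCoeff_C, map_mul, PowerSeries.constantCoeff_X, zero_mul,
          add_zero]
      rw [h2, h3]
    rw [h1]
    exact hgc
  have hdes := descent O₁ HahnSeries.ofPowerSeries_injective i₀ (thS γ₂ ϑ₂ g) hu L₃ (by
    rw [hP₃]
    exact hL₃) hrk
  rw [hP₁] at hdes
  exact hdes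

end Pool.Agent.Y531.Hlim
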