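import Pool.Agent.Y531.Hlim.Expand

/-!
# Logarithmic derivatives and limits
-/

set_option autoImplicit false
set_option linter.unusedSectionVars false
set_option maxHeartbeats 1000000
set_option synthInstance.maxHeartbeats 200000

namespace Pool.Agent.Y531.Hlim

open Finset Pool.Agent.W942 Pool.Agent.Y531 Pool.Agent.Y531.Mul Pool.Agent.Y531.Hit

/-- **The rank of the logarithmic derivative does not increase in the limit.** -/
theorem descent {ι U V : Type*} [DecidableEq ι] [Fintype ι] {M K : Type*} [Field M] [Field K]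
    (φ : PowerSeries M →+* K) (hφ : Function.Injective φ) (i : ι)
    (P : SF ι (U → V → PowerSeries M)) (hP : IsUnit (P ∅)) (LK : SF ι (U → V → K))
    (hLK : SF.dd i (SF.mapR (SF.push φ) P) = LK * SF.sg i (SF.mapR (SF.push φ) P))
    {B : Finset ι} {ρ : ℝ} (hρ : HasRkR (LK B) ρ) :
    ∃ L₁ : SF ι (U → V → M),
      SF.dd i (SF.mapR (SF.push (PowerSeries.constantCoeff (R := M))) P) =
        L₁ * SF.sg i (SF.mapR (SF.push (PowerSeries.constantCoeff (R := M))) P) ∧
      HasRkR (L₁ B) ρ := by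
  have hsg : IsUnit (SF.sg i P) := by
    apply SF.isUnit_of_apply_empty
    rw [SF.sg_apply_of_notMem (Finset.notMem_empty i)]
    exact hP
  obtain ⟨w, hw⟩ := hsg.exists_right_inv
  have hL1 : SF.dd i P = (SF.dd i P * w) * SF.sg i P := by
    rw [mul_assoc, mul_comm w, hw, mul_one]
  generalize SF.dd i P * w = L at hL1
  have h1 : SF.mapR (SF.push φ) L = LK := by
    have h2 : IsUnit (SF.sg i (SF.mapR (SF.push φ) P)) := by
      rw [← SF.mapR_sg]
      exact hsg.map _
    have h3 : SF.dd i (SF.mapR (SF.push φ) P) =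
        SF.mapR (SF.push φ) L * SF.sg i (SF.mapR (SF.push φ) P) := by
      rw [← SF.mapR_dd, ← SF.mapR_sg, hL1, map_mul]
    exact h2.mul_right_cancel (h3.symm.trans hLK)
  refine ⟨SF.mapR (SF.push (PowerSeries.constantCoeff (R := M))) L, ?_, ?_⟩
  · rw [← SF.mapR_dd, ← SF.mapR_sg, hL1, map_mul]
  · obtain ⟨r, h2, h3⟩ := hρ
    rw [← h1] at h2
    have h4 : HasRk (fun u v => φ (L B u v)) r := h2.congr fun u v => rfl
    have h5 := coeff_rk (N := L B) (r := r) φ hφ h4 0
    rw [zero_add, one_mul] at h5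
    refine ⟨r, h5.congr fun u v => ?_, h3⟩
    rw [SF.mapR_apply, SF.push_apply, PowerSeries.coeff_zero_eq_constantCoeff_apply]

end Pool.Agent.Y531.Hlim
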