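import Pool.Agent.Y531.Hlim.Main

/-!
# Easy polynomials
-/

set_option autoImplicit false
set_option linter.unusedSectionVars false
set_option maxHeartbeats 2000000
set_option synthInstance.maxHeartbeats 200000

namespace Pool.Agent.Y531.Hlim

open Finset MvPolynomial Pool.Agent.W942 Pool.Agent.Y531 Pool.Agent.Y531.Mul Pool.Agent.Y531.Hit

universe u

section defs
variable {σ : Type} {F : Type u} [Field F]

/-- `f` is the limit for `ε → 0` of a rational function over `F((ε))` which is computed over
`F((ε))` by a circuit of depth `Δ` with at most `n ^ c` gates, which may be arbitrary algebraic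
functions of `m` inputs, `m ^ q ≤ n`: the rational function is the quotient of a polynomial which
tends to `f * h` and a polynomial which tends to `h`, for some `h ≠ 0`. -/
def PolyLimit (n c Δ q : ℕ) (f : MvPolynomial σ F) : Prop :=
  ∃ h : MvPolynomial σ F, h ≠ 0 ∧ ShallowLimit n c Δ q (f * h) h

end defs

/-- **The generator hits limits of functions and of determinants.** -/
theorem easy_hits (c Δ k : ℕ) (hk : k ≠ 0) : ∃ a b q₀ N₀ : ℕ, 0 < a ∧ 0 < b ∧
    ∀ N, N₀ ≤ N → ∀ q : ℕ, q.Prime → Fintype.card (Cell a b (blockLen a b k N)) ≤ q →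
    q ≤ 2 * Fintype.card (Cell a b (blockLen a b k N)) →
    (Fintype.card (Cell a b (blockLen a b k N)) * q) ^ k ≤ N ∧
    ∀ pos : Cell a b (blockLen a b k N) → ZMod q, Function.Injective pos →
    ∀ (F : Type u) [Field F] [CharZero F] (n : ℕ), n ≤ N → ∀ f : MvPolynomial (Fin n) F, f ≠ 0 →
      PolyLimit N c Δ q₀ f ∨ ForestLimit N c Δ q₀ f →
      aeval (fun j : Fin n => G F (2 * k + 1) pos j) f ≠ 0 := by
  classical
  obtain ⟨a, b, q₀, N₀, ha, hb, H⟩ := limit_hits.{u} (3 * c + 2) (Δ + 1) k hk
  refine ⟨a, b, 4 * q₀, N₀ + 16 ^ q₀ + 2, ha, hb, ?_⟩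
  intro N hN q hq hq1 hq2
  have hn0 : N₀ ≤ N := (Nat.le_add_right _ _).trans ((Nat.le_add_right _ _).trans hN)
  have hn16 : 16 ^ q₀ ≤ N := (Nat.le_add_left _ _).trans ((Nat.le_add_right _ _).trans hN)
  have hn2 : 2 ≤ N := (Nat.le_add_left _ _).trans hN
  obtain ⟨h1, H⟩ := H N hn0 q hq hq1 hq2
  refine ⟨h1, ?_⟩
  intro pos hpos F _ _ n hnN f hf0 hf
  rcases hf with ⟨h, hh, s, m, C, R, P, Q, hs, hm, hC, hR, ⟨f₃, rfl, hf₃⟩, ⟨h₃, rfl, rfl⟩⟩ |
    ⟨N', b', w, A, hN', hb', hA, ⟨hw, hwb, hst⟩, ⟨f₃, hf₃, rfl⟩⟩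
  · let C' : Mul.Circuit (Fin n) (LaurentSeries F) s (Δ + 1) m :=
      ⟨C.g, C.depth, fun i => (C.depth_le i).trans (Nat.le_succ _), C.isGate⟩
    refine H pos hpos F n s m hnN (hs.trans (Nat.pow_le_pow_right (by omega) (by omega))) ?_
      C' f₃ h₃ R f hC hR hf₃ hh hf0
    rcases Nat.eq_zero_or_pos m with h | h
    · rw [h]
      rcases Nat.eq_zero_or_pos q₀ with h' | h'
      · rw [h', pow_zero]; omega
      · rw [zero_pow (by omega)]; exact Nat.zero_le _
    · exact (Nat.pow_le_pow_right h (by omega)).trans hm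
  · obtain ⟨K, f₃', hP, hdet, hlim⟩ := exists_pert A f₃ hf₃.symm
    set inc := algebraMap (MvPolynomial (Fin n) (LaurentSeries F))
      (AF (Fin n) (LaurentSeries F)) with hinc
    have hinj : Function.Injective inc := inc_injective
    set M : Matrix (Fin N') (Fin N') (AF (Fin n) (LaurentSeries F)) :=
      inc.mapMatrix (pert A K) with hM
    have hMapp : ∀ i j, M i j = inc (pert A K i j) := fun i j => rfl
    have hMdet : M.det = inc (pert A K).det := (RingHom.map_det inc _).symm
    have hpa : ∀ i j, pert A K i j = (if i = j then C (EE F K) else 0) + A i j := by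
      intro i j
      rw [pert, Matrix.add_apply, Matrix.scalar_apply, Matrix.diagonal_apply]
    obtain ⟨vs, r, hr, Hord, hlen⟩ := exists_ord w hw
    rw [Fintype.card_fin] at hr
    obtain ⟨C', hC'⟩ := exists_circuit_det (s := N' * (N' ^ 2 + 1) + 1) (Δ := Δ)
      (m := b' * (b' + 2)) (b := b') (M := M) Hord (by
        intro i j hij
        by_cases h : i = j
        · rw [h]; exact Or.inl (List.prefix_refl _)
        · refine hst i j fun h0 => hij ?_
          rw [hMapp, hpa, if_neg h, h0, add_zero, map_zero]) (by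
        intro i j
        rw [hMapp, hpa, map_add]
        refine Submodule.add_mem _ ?_ (affine_mem_Lin (hA i j))
        split_ifs
        · exact affine_mem_Lin (by rw [totalDegree_C]; exact Nat.zero_le _)
        · rw [map_zero]; exact Submodule.zero_mem _) (by
        intro v
        have h1 : res v M = inc.mapMatrix (res v (pert A K)) := by
          ext i j
          rw [res_apply]
          show _ = inc (res v (pert A K) i j)
          rw [res_apply]
          split_ifs with h2
          · rfl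
          · rw [Matrix.one_apply, Matrix.one_apply]
            split_ifs
            · rw [map_one]
            · rw [map_zero]
        rw [h1, ← RingHom.map_det]
        intro h0
        exact hP v (hinj (by rw [h0, map_zero]))) hlen (fun v => hwb v) le_rfl (by
        rw [Fintype.card_fin]
        exact Nat.add_le_add_right (Nat.mul_le_mul_right _ hr) 1)
    rw [hMdet, hdet] at hC'
    have hcc1 : MvPolynomial.map (PowerSeries.constantCoeff (R := F))
        (1 : MvPolynomial (Fin n) (PowerSeries F)) = 1 := map_one _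
    refine H pos hpos F n _ _ hnN ?_ ?_ C' f₃' 1 _ _ hC' (by rw [map_one, map_one, mul_one])
      (by rw [hcc1, mul_one]; exact hlim) (by rw [hcc1]; exact one_ne_zero) hf0
    · have h1 : 1 ≤ N ^ c := Nat.one_le_pow _ _ (by omega)
      have h3 : N' ^ 3 ≤ N ^ (3 * c) := by
        rw [mul_comm, pow_mul]
        exact Nat.pow_le_pow_left hN' 3
      have h4 : N' ≤ N ^ (3 * c) := hN'.trans (Nat.pow_le_pow_right (by omega) (by omega))
      have h5 : 1 ≤ N ^ (3 * c) := Nat.one_le_pow _ _ (by omega)
      have h6 : 4 ≤ N ^ 2 := by nlinarith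
      calc N' * (N' ^ 2 + 1) + 1 = N' ^ 3 + N' + 1 := by ring
        _ ≤ N ^ (3 * c) + N ^ (3 * c) + N ^ (3 * c) := by omega
        _ ≤ N ^ (3 * c) * 4 := by omega
        _ ≤ N ^ (3 * c) * N ^ 2 := Nat.mul_le_mul_left _ h6
        _ = N ^ (3 * c + 2) := (pow_add _ _ _).symm
    · by_cases hb0 : b' = 0
      · rw [hb0, zero_mul]
        rcases Nat.eq_zero_or_pos q₀ with h | h
        · rw [h, pow_zero]; omega
        · rw [zero_pow (by omega)]; exact Nat.zero_le _
      · have h1 : b' * (b' + 2) ≤ 4 * b' ^ 2 := by nlinarith [Nat.one_le_iff_ne_zero.2 hb0]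
        have h2 : ((b' * (b' + 2)) ^ q₀) ^ 2 ≤ N ^ 2 := by
          calc ((b' * (b' + 2)) ^ q₀) ^ 2 ≤ ((4 * b' ^ 2) ^ q₀) ^ 2 :=
                Nat.pow_le_pow_left (Nat.pow_le_pow_left h1 _) _
            _ = 16 ^ q₀ * b' ^ (4 * q₀) := by
                rw [mul_pow, mul_pow, ← pow_mul, ← pow_mul, ← pow_mul]
                congr 1
                · rw [mul_comm q₀ 2, pow_mul]; norm_num
                · congr 1; ring
            _ ≤ N * N := Nat.mul_le_mul hn16 hb'
            _ = N ^ 2 := by ring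
        exact (Nat.pow_le_pow_iff_left (by norm_num)).1 h2

/-- **The generator hits products and divisors.** -/
theorem prod_hits {a b h q t : ℕ} {F : Type u} [Field F] (pos : Cell a b h → ZMod q)
    {n : ℕ} {J : Type*} (s : Finset J) (f : J → MvPolynomial (Fin n) F)
    (hf : ∀ j ∈ s, aeval (fun j : Fin n => G F t pos j) (f j) ≠ 0)
    {g : MvPolynomial (Fin n) F} (hg : g ∣ ∏ j ∈ s, f j) :
    aeval (fun j : Fin n => G F t pos j) g ≠ 0 := by
  intro h0
  obtain ⟨g', hg'⟩ := hg
  have h1 : aeval (fun j : Fin n => G F t pos j) (∏ j ∈ s, f j) = 0 := by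
    rw [hg', map_mul, h0, zero_mul]
  rw [map_prod, Finset.prod_eq_zero_iff] at h1
  obtain ⟨j, hj, hj'⟩ := h1
  exact hf j hj hj'

end Pool.Agent.Y531.Hlim
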