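import Pool.Agent.Y531.Hlim.Easy

/-!
# Determinants whose entries are computed by a circuit
-/

set_option autoImplicit false
set_option linter.unusedSectionVars false
set_option maxHeartbeats 2000000
set_option synthInstance.maxHeartbeats 200000

namespace Pool.Agent.Y531.Hlim

open Finset MvPolynomial Matrix Pool.Agent.W942 Pool.Agent.Y531 Pool.Agent.Y531.Mul
  Pool.Agent.Y531.Hit

universe u

section circ
variable {σ L : Type*} [Field L] {ι : Type*} [Fintype ι] [DecidableEq ι]
variable {w : ι → List ℕ} {vs : ℕ → List ℕ} {M : Matrix ι ι (AF σ L)} {r : ℕ}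

theorem sq_lin' (H : Ord w vs r) (hst : ∀ i j, M i j ≠ 0 → w i <+: w j ∨ w j <+: w i)
    {S₀ : Set (AF σ L)} (hM : ∀ i j, M i j ∈ Lin S₀) : ∀ k ≤ r, ∀ i j, sq w vs M k i j ∈
      Lin (S₀ ∪ {f | ∃ k' < k, Below (w i) (vs k') ∧ Below (w j) (vs k') ∧
        ∃ a b, f = con (bag w (vs k')) (sq w vs M k') a b}) := by
  intro k
  induction k with
  | zero =>
    intro _ i j
    exact Lin_mono Set.subset_union_left (hM i j)
  | succ k ih =>
    intro hk i j
    have hs : sq w vs M (k + 1) i j = if i ∈ bag w (vs k) ∨ j ∈ bag w (vs k) then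
        (1 : Matrix ι ι (AF σ L)) i j else
        sq w vs M k i j - con (bag w (vs k)) (sq w vs M k) i j := rfl
    rw [hs]
    by_cases hij : i ∈ bag w (vs k) ∨ j ∈ bag w (vs k)
    · rw [if_pos hij, Matrix.one_apply]
      split_ifs
      · exact one_mem_Lin
      · exact Submodule.zero_mem _
    · rw [if_neg hij]
      refine Submodule.sub_mem _ (Lin_mono ?_ (ih (by omega) i j)) ?_
      · refine Set.union_subset_union_right _ ?_
        rintro f ⟨k', hk', h⟩
        exact ⟨k', by omega, h⟩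
      · by_cases hne : con (bag w (vs k)) (sq w vs M k) i j = 0
        · rw [hne]; exact Submodule.zero_mem _
        · obtain ⟨h1, h2⟩ := con_below H hst (by omega) hij hne
          exact mem_Lin (Or.inr ⟨k, by omega, h1, h2, i, j, rfl⟩)

/-- **The circuit for the determinant.** -/
theorem exists_circuit_det' {s₀ Δ₀ s Δ m b : ℕ} (C₀ : Circuit σ L s₀ Δ₀ m) (H : Ord w vs r)
    (hst : ∀ i j, M i j ≠ 0 → w i <+: w j ∨ w j <+: w i)
    (hM : ∀ i j, C₀.Computes (M i j)) (hP : AllPrin M)
    (hlen : ∀ k < r, (vs k).length ≤ Δ) (hb : ∀ v, (bag w v).card ≤ b) (hbm : b * (b + 2) ≤ m)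
    (hs : s₀ + (r * (Fintype.card ι ^ 2 + 1) + 1) ≤ s) :
    ∃ C : Circuit σ L s (Δ₀ + Δ + 2) m, C.Computes M.det := by
  classical
  have hr : r ≤ s := by
    have h1 : r * 1 ≤ r * (Fintype.card ι ^ 2 + 1) := Nat.mul_le_mul_left _ (Nat.le_add_left _ _)
    omega
  have hbc : ∀ v, (bag w v).card * ((bag w v).card + 2) ≤ m := fun v =>
    (Nat.mul_le_mul (hb v) (Nat.add_le_add_right (hb v) 2)).trans hbm
  let γ : Fin s₀ ⊕ Option (Fin r × Option (ι × ι)) → AF σ L := Sum.elim C₀.g
    fun x => x.elim M.det fun y => y.2.elim (res (bag w (vs y.1)) (sq w vs M y.1)).det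
      fun z => con (bag w (vs y.1)) (sq w vs M y.1) z.1 z.2
  let dep : Fin s₀ ⊕ Option (Fin r × Option (ι × ι)) → ℕ := Sum.elim C₀.depth
    fun x => Δ₀ + 1 + x.elim (Δ + 1) fun y => Δ - (vs y.1).length
  suffices hg : ∀ x, IsGate s m {f | ∃ j', dep j' < dep x ∧ f = γ j'} (γ x) by
    obtain ⟨C, hC⟩ := exists_circuit (s := s) (Δ := Δ₀ + Δ + 2) (m := m) γ dep (by
      rintro (i | _ | y)
      · exact (C₀.depth_le i).trans (by omega)
      · show Δ₀ + 1 + (Δ + 1) ≤ Δ₀ + Δ + 2
        omega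
      · show Δ₀ + 1 + (Δ - (vs y.1).length) ≤ Δ₀ + Δ + 2
        omega) hg (by
      rw [Fintype.card_sum, Fintype.card_option, Fintype.card_prod, Fintype.card_option,
        Fintype.card_prod, Fintype.card_fin, Fintype.card_fin, ← pow_two]
      exact hs)
    exact ⟨C, hC _ (mem_Lin ⟨Sum.inr none, rfl⟩)⟩
  · rintro (i | _ | ⟨k, z⟩)
    · refine (C₀.isGate i).mono (by omega) ?_
      rintro f ⟨i', hi', rfl⟩
      exact ⟨Sum.inl i', hi', rfl⟩
    · refine Or.inl ⟨r, 1, fun k => γ (Sum.inr (some (k, none))), fun _ => 1, fun _ => 0, hr,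
        one_ne_zero, fun k => mem_Lin ⟨Sum.inr (some (k, none)), ?_, rfl⟩, by simp, ?_⟩
      · show Δ₀ + 1 + (Δ - (vs k).length) < Δ₀ + 1 + (Δ + 1)
        omega
      · simp only [pow_one, pow_zero, Finset.prod_const_one, mul_one]
        show M.det = ∏ k : Fin r, (res (bag w (vs k)) (sq w vs M k)).det
        rw [Fin.prod_univ_eq_prod_range
          (fun k => (res (bag w (vs k)) (sq w vs M k)).det) r]
        have h1 := sq_det (w := w) (vs := vs) hP r
        rw [sq_end H hst, Matrix.det_one, mul_one] at h1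
        exact h1
    · have key : ∀ a c, (a ∈ bag w (vs k) ∨ c ∈ bag w (vs k)) →
          sq w vs M k a c ∈
            Lin {f | ∃ j', dep j' < dep (Sum.inr (some (k, z))) ∧ f = γ j'} := by
        intro a c hac
        refine Lin_mono ?_ (sq_lin' H hst hM k k.2.le a c)
        rintro f (⟨i', rfl⟩ | ⟨k', hk', h1, h2, a', b', rfl⟩)
        · refine ⟨Sum.inl i', ?_, rfl⟩
          show C₀.depth i' < Δ₀ + 1 + (Δ - (vs k).length)
          have := C₀.depth_le i'
          omega
        refine ⟨Sum.inr (some (⟨k', hk'.trans k.2⟩, some (a', b'))), ?_, rfl⟩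
        show Δ₀ + 1 + (Δ - (vs k').length) < Δ₀ + 1 + (Δ - (vs k).length)
        have h3 : Below (vs k) (vs k') := by
          rcases hac with h | h
          · rw [mem_bag] at h; rw [← h]; exact h1
          · rw [mem_bag] at h; rw [← h]; exact h2
        have h4 : (vs k).length < (vs k').length := by
          refine lt_of_le_of_ne h3.1.length_le fun h => h3.2 ?_
          exact h3.1.eq_of_length h
        have h5 := hlen k' (hk'.trans k.2)
        omega
      rcases z with _ | z
      · exact isGate_det (hbc _) fun a ha c _ => key a c (Or.inl ha)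
      · exact isGate_con (hbc _) (fun a ha c _ => key a c (Or.inl ha))
          (fun c hc => key z.1 c (Or.inr hc)) (fun a ha => key a z.2 (Or.inl ha))
          (sq_prin hP k _)

end circ

/-- A circuit with a larger number of inputs. -/
theorem exists_wider {σ L : Type*} [Field L] {s Δ m m' : ℕ} (h : m ≤ m')
    (C : Circuit σ L s Δ m) : ∃ C' : Circuit σ L s Δ m', C'.g = C.g := by
  refine ⟨⟨C.g, C.depth, C.depth_le, fun i => ?_⟩, rfl⟩
  rcases C.isGate i with hg | ⟨l, hl, hg⟩
  · exact Or.inl hg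
  · refine Or.inr ⟨fun j => if hj : (j : ℕ) < m then l ⟨j, hj⟩ else 0, fun j => ?_, ?_⟩
    · by_cases hj : (j : ℕ) < m
      · simp only [dif_pos hj]; exact hl _
      · simp only [dif_neg hj]; exact Submodule.zero_mem _
    · have hsub : Algebra.adjoin L (Set.range l) ≤ Algebra.adjoin L (Set.range
          fun j : Fin m' => if hj : (j : ℕ) < m then l ⟨j, hj⟩ else 0) := by
        apply Algebra.adjoin_mono
        rintro _ ⟨j, rfl⟩
        exact ⟨⟨j, j.2.trans_le h⟩, by simp⟩
      obtain ⟨p, hp, hp'⟩ := hg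
      refine ⟨p.map (Subalgebra.inclusion hsub).toRingHom, ?_, ?_⟩
      · rw [Polynomial.map_ne_zero_iff (Subalgebra.inclusion_injective hsub)]
        exact hp
      · rw [Polynomial.aeval_def, Polynomial.eval₂_map]
        exact hp'

section defs
variable {σ : Type} {F : Type u} [Field F]

/-- The matrix `A` is computed by a circuit of depth `Δ` with at most `n ^ c` gates of arity `m`,
`m ^ q ≤ n`. -/
def EntriesIn {I J : Type*} (n c Δ q : ℕ)
    (A : Matrix I J (MvPolynomial σ (LaurentSeries F))) : Prop :=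
  ∃ (s m : ℕ) (C : Circuit σ (LaurentSeries F) s Δ m), s ≤ n ^ c ∧ m ^ q ≤ n ∧
    ∀ i j, C.Computes (algebraMap _ (AF σ (LaurentSeries F)) (A i j))

/-- `f` is the limit for `ε → 0` of determinants of matrices over `F((ε))[x]` of order at most
`n ^ c`, which have an elimination forest of height `Δ` with bags of size at most `b`, `b ^ q ≤ n`,
and whose entries are computed by a circuit of depth `Δ`. -/
def MatrixLimit (n c Δ q : ℕ) (f : MvPolynomial σ F) : Prop :=
  ∃ (N b : ℕ) (w : Fin N → List ℕ) (A : Matrix (Fin N) (Fin N) (MvPolynomial σ (LaurentSeries F))),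
    N ≤ n ^ c ∧ b ^ q ≤ n ∧ EntriesIn n c Δ q A ∧ ElimForest Δ b w A ∧ TendsTo A.det f

end defs

/-- **The generator hits limits of determinants.** -/
theorem matrix_hits (c Δ k : ℕ) (hk : k ≠ 0) : ∃ a b q₀ N₀ : ℕ, 0 < a ∧ 0 < b ∧
    ∀ N, N₀ ≤ N → ∀ q : ℕ, q.Prime → Fintype.card (Cell a b (blockLen a b k N)) ≤ q →
    q ≤ 2 * Fintype.card (Cell a b (blockLen a b k N)) →
    (Fintype.card (Cell a b (blockLen a b k N)) * q) ^ k ≤ N ∧
    ∀ pos : Cell a b (blockLen a b k N) → ZMod q, Function.Injective pos →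
    ∀ (F : Type u) [Field F] [CharZero F] (n : ℕ), n ≤ N → ∀ f : MvPolynomial (Fin n) F, f ≠ 0 →
      MatrixLimit N c Δ q₀ f → aeval (fun j : Fin n => G F (2 * k + 1) pos j) f ≠ 0 := by
  classical
  obtain ⟨a, b, q₀, N₀, ha, hb, H⟩ := limit_hits.{u} (3 * c + 3) (Δ + Δ + 2) k hk
  refine ⟨a, b, 4 * q₀, N₀ + 16 ^ q₀ + 2, ha, hb, ?_⟩
  intro N hN q hq hq1 hq2
  have hn0 : N₀ ≤ N := (Nat.le_add_right _ _).trans ((Nat.le_add_right _ _).trans hN)
  have hn16 : 16 ^ q₀ ≤ N := (Nat.le_add_left _ _).trans ((Nat.le_add_right _ _).trans hN)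
  have hn2 : 2 ≤ N := (Nat.le_add_left _ _).trans hN
  obtain ⟨h1, H⟩ := H N hn0 q hq hq1 hq2
  refine ⟨h1, ?_⟩
  rintro pos hpos F _ _ n hnN f hf0 ⟨N', b', w, A, hN', hb', ⟨s₀, m₀, C₀, hs₀, hm₀, hA⟩,
    ⟨hw, hwb, hst⟩, ⟨f₃, hf₃, rfl⟩⟩
  obtain ⟨K, f₃', hP, hdet, hlim⟩ := exists_pert A f₃ hf₃.symm
  set inc := algebraMap (MvPolynomial (Fin n) (LaurentSeries F))
    (AF (Fin n) (LaurentSeries F)) with hinc
  have hinj : Function.Injective inc := inc_injective
  set M : Matrix (Fin N') (Fin N') (AF (Fin n) (LaurentSeries F)) :=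
    inc.mapMatrix (pert A K) with hM
  have hMapp : ∀ i j, M i j = inc (pert A K i j) := fun i j => rfl
  have hMdet : M.det = inc (pert A K).det := (RingHom.map_det inc _).symm
  have hpa : ∀ i j, pert A K i j = (if i = j then C (EE F K) else 0) + A i j := by
    intro i j
    rw [pert, Matrix.add_apply, Matrix.scalar_apply, Matrix.diagonal_apply]
  obtain ⟨vs, r, hr, Hord, hlen⟩ := exists_ord w hw
  rw [Fintype.card_fin] at hr
  obtain ⟨C₁, hC₁⟩ := exists_wider (le_max_left m₀ (b' * (b' + 2))) C₀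
  obtain ⟨C', hC'⟩ := exists_circuit_det' (s := s₀ + (N' * (N' ^ 2 + 1) + 1)) (Δ := Δ)
    (m := max m₀ (b' * (b' + 2))) (b := b') (M := M) C₁ Hord (by
      intro i j hij
      by_cases h : i = j
      · rw [h]; exact Or.inl (List.prefix_refl _)
      · refine hst i j fun h0 => hij ?_
        rw [hMapp, hpa, if_neg h, h0, add_zero, map_zero]) (by
      intro i j
      rw [hMapp, hpa, map_add]
      show _ ∈ Lin (Set.range C₁.g)
      rw [hC₁]
      refine Submodule.add_mem _ ?_ (hA i j)
      split_ifs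
      · exact Lin_mono (Set.empty_subset _)
          (affine_mem_Lin (by rw [totalDegree_C]; exact Nat.zero_le _))
      · rw [map_zero]; exact Submodule.zero_mem _) (by
      intro v
      have h1 : res v M = inc.mapMatrix (res v (pert A K)) := by
        ext i j
        rw [res_apply]
        show _ = inc (res v (pert A K) i j)
        rw [res_apply]
        split_ifs with h2
        · rfl
        · rw [Matrix.one_apply, Matrix.one_apply]
          split_ifs
          · rw [map_one]
          · rw [map_zero]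
      rw [h1, ← RingHom.map_det]
      intro h0
      exact hP v (hinj (by rw [h0, map_zero]))) hlen (fun v => hwb v) (le_max_right _ _) (by
      rw [Fintype.card_fin]
      exact Nat.add_le_add_left (Nat.add_le_add_right (Nat.mul_le_mul_right _ hr) 1) _)
  rw [hMdet, hdet] at hC'
  have hcc1 : MvPolynomial.map (PowerSeries.constantCoeff (R := F))
      (1 : MvPolynomial (Fin n) (PowerSeries F)) = 1 := map_one _
  refine H pos hpos F n _ _ hnN ?_ ?_ C' f₃' 1 _ _ hC' (by rw [map_one, map_one, mul_one])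
    (by rw [hcc1, mul_one]; exact hlim) (by rw [hcc1]; exact one_ne_zero) hf0
  · have h1 : 1 ≤ N ^ c := Nat.one_le_pow _ _ (by omega)
    have h3 : N' ^ 3 ≤ N ^ (3 * c) := by
      rw [mul_comm, pow_mul]
      exact Nat.pow_le_pow_left hN' 3
    have h4 : N' ≤ N ^ (3 * c) := hN'.trans (Nat.pow_le_pow_right (by omega) (by omega))
    have h7 : s₀ ≤ N ^ (3 * c) := hs₀.trans (Nat.pow_le_pow_right (by omega) (by omega))
    have h5 : 1 ≤ N ^ (3 * c) := Nat.one_le_pow _ _ (by omega)
    have h6 : 4 ≤ N ^ 3 := by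
      calc 4 ≤ 2 ^ 3 := by norm_num
        _ ≤ N ^ 3 := Nat.pow_le_pow_left hn2 3
    calc s₀ + (N' * (N' ^ 2 + 1) + 1) = s₀ + (N' ^ 3 + N' + 1) := by ring
      _ ≤ N ^ (3 * c) + (N ^ (3 * c) + N ^ (3 * c) + N ^ (3 * c)) := by omega
      _ ≤ N ^ (3 * c) * 4 := by omega
      _ ≤ N ^ (3 * c) * N ^ 3 := Nat.mul_le_mul_left _ h6
      _ = N ^ (3 * c + 3) := (pow_add _ _ _).symm
  · rcases le_total (b' * (b' + 2)) m₀ with hmb | hmb
    · rw [max_eq_left hmb]
      rcases Nat.eq_zero_or_pos m₀ with h | h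
      · rw [h]
        rcases Nat.eq_zero_or_pos q₀ with h' | h'
        · rw [h', pow_zero]; omega
        · rw [zero_pow (by omega)]; exact Nat.zero_le _
      · exact (Nat.pow_le_pow_right h (by omega)).trans hm₀
    · rw [max_eq_right hmb]
      by_cases hb0 : b' = 0
      · rw [hb0, zero_mul]
        rcases Nat.eq_zero_or_pos q₀ with h | h
        · rw [h, pow_zero]; omega
        · rw [zero_pow (by omega)]; exact Nat.zero_le _
      · have h1 : b' * (b' + 2) ≤ 4 * b' ^ 2 := by nlinarith [Nat.one_le_iff_ne_zero.2 hb0]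
        have h2 : ((b' * (b' + 2)) ^ q₀) ^ 2 ≤ N ^ 2 := by
          calc ((b' * (b' + 2)) ^ q₀) ^ 2 ≤ ((4 * b' ^ 2) ^ q₀) ^ 2 :=
                Nat.pow_le_pow_left (Nat.pow_le_pow_left h1 _) _
            _ = 16 ^ q₀ * b' ^ (4 * q₀) := by
                rw [mul_pow, mul_pow, ← pow_mul, ← pow_mul, ← pow_mul]
                congr 1
                · rw [mul_comm q₀ 2, pow_mul]; norm_num
                · congr 1; ring
            _ ≤ N * N := Nat.mul_le_mul hn16 hb'
            _ = N ^ 2 := by ring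
        exact (Nat.pow_le_pow_iff_left (by norm_num)).1 h2

end Pool.Agent.Y531.Hlim
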