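import Pool.Agent.Y531.Hlim.Descent

/-!
# The logarithmic derivative of the limit of a function computed by a circuit
-/

set_option autoImplicit false
set_option linter.unusedSectionVars false
set_option maxHeartbeats 2000000
set_option synthInstance.maxHeartbeats 200000

namespace Pool.Agent.Y531.Hlim

open Finset Pool.Agent.W942 Pool.Agent.Y531 Pool.Agent.Y531.Mul Pool.Agent.Y531.Hit

variable {a b h : ℕ}

/-- **The limit.** -/
theorem eps_step {σ F M K : Type*} [Fintype σ] [Field F] [CharZero F] [Field M] [Field K]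
    [IsAlgClosed K] {s Δ m : ℕ} {T : ℕ → ℕ} (jK : LaurentSeries M →+* K) (γ : F →+* M)
    (ϑ₃ : σ → SF (Fin b ⊕ Fin a) (FF a b h M)) (z₃ : σ → M)
    (hϑ₃ : ∀ j, ϑ₃ j ∅ = algebraMap M (FF a b h M) (z₃ j))
    (hgen : ∀ p : MvPolynomial σ F, p ≠ 0 → p.eval₂ γ z₃ ≠ 0)
    (hT0 : 2 ≤ T 0) (hTm : Monotone T) {ϑ : ℝ} (hϑ0 : 0 < ϑ) (hTK : T (2 * Δ + 3) ≤ a + b)
    (hscale : ∀ k, k < 2 * Δ + 3 → ∃ z : ℝ, 0 ≤ z ∧ z ≤ 1 ∧ NumScale a b h (T k) z ∧
      z ^ (T (k + 1)) ≤ ϑ)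
    (hvar : ∀ j, Good (bitFrame a b h) (T 0) ϑ (ϑ₃ j))
    (C : Mul.Circuit σ (LaurentSeries F) s Δ m)
    (f₃ h₃ : MvPolynomial σ (PowerSeries F)) {R₀ : AF σ (LaurentSeries F)}
    (hC : C.Computes R₀)
    (hR : R₀ * algebraMap (MvPolynomial σ (LaurentSeries F)) _
        (MvPolynomial.map (HahnSeries.ofPowerSeries ℤ F) h₃) =
      algebraMap (MvPolynomial σ (LaurentSeries F)) _
        (MvPolynomial.map (HahnSeries.ofPowerSeries ℤ F) f₃))
    {g : MvPolynomial σ F}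
    (hg : MvPolynomial.map PowerSeries.constantCoeff f₃ =
      g * MvPolynomial.map PowerSeries.constantCoeff h₃)
    (hh : MvPolynomial.map PowerSeries.constantCoeff h₃ ≠ 0) (hg0 : g ≠ 0) (i₀ : Fin b ⊕ Fin a) :
    ∃ L₁ : SF (Fin b ⊕ Fin a) (FF a b h M),
      SF.dd i₀ (thS γ ϑ₃ g) = L₁ * SF.sg i₀ (thS γ ϑ₃ g) ∧
      HasRkR (L₁ (Finset.univ.erase i₀)) (2 ^ ((a + b) ^ 2) * (((Fintype.card σ : ℝ) + s + 1) *
        (cost (Fintype.card σ) s m (a + b) ^ (Δ + 1) * ϑ)) * 2 ^ (b * (a * h))) := by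
  classical
  have hcard : Fintype.card (Fin b ⊕ Fin a) = a + b := by
    rw [Fintype.card_sum, Fintype.card_fin, Fintype.card_fin, add_comm]
  let γ₄ : PowerSeries F →+* PowerSeries M := PowerSeries.map γ
  let cM : FF a b h M →+* FF a b h (PowerSeries M) := SF.push PowerSeries.C
  let ϑ₄ : σ → SF (Fin b ⊕ Fin a) (FF a b h (PowerSeries M)) := fun j => SF.mapR cM (ϑ₃ j)
  have hϑ₄ : ∀ j, ϑ₄ j ∅ = algebraMap (PowerSeries M) (FF a b h (PowerSeries M))
      (PowerSeries.C (z₃ j)) := by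
    intro j
    show cM (ϑ₃ j ∅) = _
    rw [hϑ₃]
    rfl
  let O₂ : PowerSeries M →+* LaurentSeries M := HahnSeries.ofPowerSeries ℤ M
  let φ : PowerSeries M →+* K := jK.comp O₂
  have hφ : Function.Injective φ := jK.injective.comp HahnSeries.ofPowerSeries_injective
  let γK : LaurentSeries F →+* K := jK.comp (hmap γ)
  let pK : FF a b h (PowerSeries M) →+* FF a b h K := SF.push φ
  let ϑK : σ → SF (Fin b ⊕ Fin a) (FF a b h K) := fun j => SF.mapR pK (ϑ₄ j)
  let zK : σ → K := fun j => jK (HahnSeries.C (z₃ j))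
  have hϑK : ∀ j, ϑK j ∅ = algebraMap K (FF a b h K) (zK j) := by
    intro j
    show pK (ϑ₄ j ∅) = _
    rw [hϑ₄]
    funext u v
    show jK (HahnSeries.ofPowerSeries ℤ _ (PowerSeries.C (z₃ j))) = jK (HahnSeries.C (z₃ j))
    rw [ofPS_C]
  have hne : ∀ p : MvPolynomial σ (LaurentSeries F), p ≠ 0 → p.eval₂ γK zK ≠ 0 := by
    intro p hp h0
    have h1 := eval_ne_zero γ z₃ hgen p hp
    apply h1
    apply jK.injective
    rw [map_zero, ← h0]
    exact (MvPolynomial.eval₂_comp_left jK (hmap γ)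
      (fun x => (HahnSeries.C (z₃ x) : LaurentSeries M)) p)
  have hchL : CharZero (LaurentSeries F) :=
    charZero_of_injective_algebraMap (algebraMap F (LaurentSeries F)).injective
  obtain ⟨Φ, hΦ1, hΦ2⟩ := exists_expansion (thS γK ϑK)
    (fun p => ⟨_, thS_empty γK ϑK hϑK p⟩) (fun p hp h0 => by
      rw [thS_empty γK ϑK hϑK] at h0
      exact hne p hp (congrFun (congrFun h0 (fun _ => true)) (fun _ => true)))
  let _ : Algebra (LaurentSeries F) K := γK.toAlgebra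
  let Θ : AF σ (LaurentSeries F) →ₐ[LaurentSeries F]
      SF (Fin b ⊕ Fin a) ((Ed a b h → Bool) → (Ed a b h → Bool) → K) :=
    { Φ with
      commutes' := fun c => by
        show Φ (algebraMap _ _ c) = _
        rw [IsScalarTower.algebraMap_apply (LaurentSeries F)
          (MvPolynomial σ (LaurentSeries F)), hΦ1, MvPolynomial.algebraMap_eq, thS_C]
        rfl }
  have hΘ : ∀ p : MvPolynomial σ (LaurentSeries F),
      Θ (algebraMap _ _ p) = thS γK ϑK p := hΦ1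
  have hvarK : ∀ j : σ, Good (bitFrame a b h) (T 0) ϑ (ϑK j) := by
    intro j
    have h1 : ϑK j = SF.mapR (SF.push (φ.comp (PowerSeries.C (R := M)))) (ϑ₃ j) := rfl
    rw [h1]
    exact Good_push _ (hvar j)
  have hout := circuit_good' (T := T) (ϑ := ϑ) (Δ := Δ) hT0 hTm hϑ0
    (fun k hk => hscale k (by omega)) Θ hΦ2
    (fun j => by rw [hΘ, thS_X]; exact hvarK j) C hC
  set Pt := Θ R₀ with hPt
  have hPR : Pt * thS γK ϑK (MvPolynomial.map (HahnSeries.ofPowerSeries ℤ F) h₃) =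
      thS γK ϑK (MvPolynomial.map (HahnSeries.ofPowerSeries ℤ F) f₃) := by
    have h1 := congrArg Θ hR
    rw [map_mul, hΘ, hΘ] at h1
    exact h1
  set c := cost (Fintype.card σ) s m (a + b) with hc
  have hc1 : 1 ≤ c := one_le_cost _ s m (a + b)
  have hn0 : (0:ℝ) ≤ Fintype.card σ := Nat.cast_nonneg _
  have hs0 : (0:ℝ) ≤ s := Nat.cast_nonneg s
  set X : ℝ := ((Fintype.card σ : ℝ) + s + 1) * (c ^ (Δ + 1) * ϑ) with hX
  have hX0 : 0 ≤ X := by positivity
  have hϑX : ϑ ≤ X := by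
    have h1 : (1:ℝ) ≤ ((Fintype.card σ : ℝ) + s + 1) * c ^ (Δ + 1) :=
      one_le_mul_of_one_le_of_one_le (by linarith) (one_le_pow₀ hc1)
    have h2 : X = (((Fintype.card σ : ℝ) + s + 1) * c ^ (Δ + 1)) * ϑ := by rw [hX]; ring
    rw [h2]
    exact le_mul_of_one_le_left hϑ0.le h1
  -- over the power series in `ε`
  have hpre : ∀ p : MvPolynomial σ (PowerSeries F),
      SF.mapR pK (thS γ₄ ϑ₄ p) =
        thS γK ϑK (MvPolynomial.map (HahnSeries.ofPowerSeries ℤ F) p) := by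
    intro p
    show SF.mapR (SF.push φ) (thS γ₄ ϑ₄ p) = _
    rw [thS_map, thS_pre]
    congr 1
    congr 1
    refine RingHom.ext fun p => ?_
    show jK (O₂ (PowerSeries.map γ p)) = jK (hmap γ (HahnSeries.ofPowerSeries ℤ F p))
    rw [hmap_ofPS]
  let cc : FF a b h (PowerSeries M) →+* FF a b h M := SF.push PowerSeries.constantCoeff
  have hccϑ : (fun j => SF.mapR cc (ϑ₄ j)) = ϑ₃ := by
    funext j
    refine SF.ext' fun B => ?_
    funext u v
    show PowerSeries.constantCoeff (PowerSeries.C (ϑ₃ j B u v)) = _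
    rw [PowerSeries.constantCoeff_C]
  have hcc : ∀ p : MvPolynomial σ (PowerSeries F),
      SF.mapR cc (thS γ₄ ϑ₄ p) = thS γ ϑ₃ (MvPolynomial.map PowerSeries.constantCoeff p) := by
    intro p
    have h1 := thS_map γ₄ ϑ₄ (PowerSeries.constantCoeff (R := M)) p
    refine h1.trans ?_
    rw [thS_pre]
    have h2 : (fun x => SF.mapR (SF.push (PowerSeries.constantCoeff (R := M))) (ϑ₄ x)) = ϑ₃ := hccϑ
    rw [h2]
    congr 1
  have hunitO : ∀ p : MvPolynomial σ (PowerSeries F),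
      MvPolynomial.map PowerSeries.constantCoeff p ≠ 0 → IsUnit (thS γ₄ ϑ₄ p) := by
    intro p hp
    apply SF.isUnit_of_apply_empty
    rw [thS_empty γ₄ ϑ₄ hϑ₄]
    refine IsUnit.map (algebraMap _ _) ?_
    rw [PowerSeries.isUnit_iff_constantCoeff, isUnit_iff_ne_zero]
    have h1 : PowerSeries.constantCoeff (p.eval₂ γ₄ (fun j => PowerSeries.C (z₃ j))) =
        (MvPolynomial.map PowerSeries.constantCoeff p).eval₂ γ z₃ := by
      rw [MvPolynomial.eval₂_comp_left (PowerSeries.constantCoeff (R := M)),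
        MvPolynomial.eval₂_map]
      congr 1
    rw [h1]
    exact hgen _ hp
  have hf : MvPolynomial.map PowerSeries.constantCoeff f₃ ≠ 0 := by
    rw [hg]
    exact mul_ne_zero hg0 hh
  obtain ⟨wh, hwh⟩ := (hunitO h₃ hh).exists_right_inv
  have hwhu : IsUnit wh := IsUnit.of_mul_eq_one _ (by rw [mul_comm]; exact hwh)
  have hPOu : IsUnit (thS γ₄ ϑ₄ f₃ * wh) := (hunitO f₃ hf).mul hwhu
  have hPO1 : SF.mapR pK (thS γ₄ ϑ₄ f₃ * wh) = Pt := by
    have h1 : SF.mapR pK (thS γ₄ ϑ₄ h₃) * SF.mapR pK wh = 1 := by rw [← map_mul, hwh, map_one]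
    rw [hpre] at h1
    calc SF.mapR pK (thS γ₄ ϑ₄ f₃ * wh)
        = (Pt * thS γK ϑK (MvPolynomial.map (HahnSeries.ofPowerSeries ℤ F) h₃)) *
          SF.mapR pK wh := by rw [map_mul, hpre, hPR]
      _ = Pt * (thS γK ϑK (MvPolynomial.map (HahnSeries.ofPowerSeries ℤ F) h₃) *
          SF.mapR pK wh) := by ring
      _ = Pt := by rw [h1, mul_one]
  have hPδ : SF.mapR cc (thS γ₄ ϑ₄ f₃ * wh) = thS γ ϑ₃ g := by
    have h1 : SF.mapR cc (thS γ₄ ϑ₄ h₃) * SF.mapR cc wh = 1 := by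
      rw [← map_mul, hwh, map_one]
    rw [hcc] at h1
    rw [map_mul, hcc, hg, map_mul, mul_assoc, h1, mul_one]
  generalize thS γ₄ ϑ₄ f₃ * wh = PO at hPOu hPO1 hPδ
  -- the logarithmic derivative
  have hPO0 : IsUnit (PO ∅) :=
    hPOu.map (SF.ev0 (ι := Fin b ⊕ Fin a) (R := FF a b h (PowerSeries M)))
  obtain ⟨cP, hP0'⟩ : ∃ cP : K, Pt ∅ = algebraMap K (FF a b h K) cP := hΦ2 R₀
  have hPtu : IsUnit (Pt ∅) := by
    rw [← hPO1]
    exact hPO0.map pK
  have hcP0 : cP ≠ 0 := by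
    intro h0
    rw [hP0', h0, map_zero] at hPtu
    exact not_isUnit_zero hPtu
  obtain ⟨LK, hLK⟩ := exists_LD' i₀ Pt hPtu
  obtain ⟨z, hz0, hz1, hzs, hzT⟩ := hscale (2 * Δ + 2) (by omega)
  set B : Finset (Fin b ⊕ Fin a) := Finset.univ.erase i₀ with hB
  have hBi : i₀ ∉ B := Finset.notMem_erase _ _
  have hBins : insert i₀ B = Finset.univ := Finset.insert_erase (Finset.mem_univ _)
  have hBc : B.card = a + b - 1 := by
    rw [hB, Finset.card_erase_of_mem (Finset.mem_univ _), Finset.card_univ, hcard]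
  have hbd := LD.bd (triv_bitFrame a b h) hz0 hz1 hX0 (scale_of_num hzs) hout hcP0 hP0'
    (show LD i₀ Pt LK from hLK) B.card B rfl hBi
  rw [hBins] at hbd
  have hmax : max (z ^ (Finset.univ : Finset (Fin b ⊕ Fin a)).card) X = X := by
    refine max_eq_right ?_
    rw [Finset.card_univ, hcard]
    exact ((pow_le_pow_of_le_one hz0 hz1 hTK).trans hzT).trans hϑX
  have hwt : (bitFrame a b h).wt Finset.univ = 2 ^ (b * (a * h)) := by
    rw [wt_bitFrame]
    have h4 : lef (Finset.univ : Finset (Fin b ⊕ Fin a)) = b := by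
      rw [lef, Finset.preimage_univ, Finset.card_univ, Fintype.card_fin]
    have h5 : rig (Finset.univ : Finset (Fin b ⊕ Fin a)) = a := by
      rw [rig, Finset.preimage_univ, Finset.card_univ, Fintype.card_fin]
    rw [h4, h5]
    have h6 : a * h * b + b * h * a = 2 * (b * (a * h)) := by ring
    rw [h6, pow_mul, Real.sq_sqrt (by norm_num)]
  have hrkL : HasRkR (LK B) (2 ^ ((a + b) ^ 2) * X * 2 ^ (b * (a * h))) := by
    refine hbd.2.mono ?_
    rw [hmax, hwt, hBc]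
    have h1 : (2:ℝ) ^ ((a + b - 1) ^ 2) ≤ 2 ^ ((a + b) ^ 2) :=
      pow_le_pow_right₀ (by norm_num) (Nat.pow_le_pow_left (Nat.sub_le _ _) 2)
    gcongr
  have hdes := descent φ hφ i₀ PO hPO0 LK (by
    have h1 : SF.mapR (SF.push φ) PO = Pt := hPO1
    rw [h1]
    exact hLK) hrkL
  have h2 : SF.mapR (SF.push (PowerSeries.constantCoeff (R := M))) PO = thS γ ϑ₃ g := hPδ
  rw [h2] at hdes
  exact hdes

end Pool.Agent.Y531.Hlim
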