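import Pool.Agent.Y531.Hlim.Point

/-!
# Expansion of polynomials at given expansions of the variables
-/

set_option autoImplicit false
set_option linter.unusedSectionVars false
set_option maxHeartbeats 2000000
set_option synthInstance.maxHeartbeats 200000

namespace Pool.Agent.Y531.Hlim

open Finset Pool.Agent.W942 Pool.Agent.Y531 Pool.Agent.Y531.Mul Pool.Agent.Y531.Hit

variable {a b h : ℕ}

section thS
variable {σ C A A' : Type*} [CommRing C] [CommRing A] [CommRing A']

/-- The expansion of polynomials. -/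
noncomputable def thS (γ : C →+* A) (ϑ : σ → SF (Fin b ⊕ Fin a) (FF a b h A)) :
    MvPolynomial σ C →+* SF (Fin b ⊕ Fin a) (FF a b h A) :=
  MvPolynomial.eval₂Hom ((SF.cst (ι := Fin b ⊕ Fin a)).comp
    ((algebraMap A (FF a b h A)).comp γ)) ϑ

variable (γ : C →+* A) (ϑ : σ → SF (Fin b ⊕ Fin a) (FF a b h A))

theorem thS_C (c : C) : thS γ ϑ (MvPolynomial.C c) = SF.cst (algebraMap A (FF a b h A) (γ c)) := by
  rw [thS, MvPolynomial.eval₂Hom_C]
  rfl

theorem thS_X (x : σ) : thS γ ϑ (MvPolynomial.X x) = ϑ x := by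
  rw [thS, MvPolynomial.eval₂Hom_X']

theorem thS_map (δ : A →+* A') (p : MvPolynomial σ C) :
    SF.mapR (SF.push δ) (thS γ ϑ p) = thS (δ.comp γ) (fun x => SF.mapR (SF.push δ) (ϑ x)) p := by
  have h1 : (SF.mapR (ι := Fin b ⊕ Fin a) (SF.push (U := Ed a b h → Bool)
      (V := Ed a b h → Bool) δ)).comp (thS γ ϑ) =
      thS (δ.comp γ) (fun x => SF.mapR (SF.push δ) (ϑ x)) := by
    refine MvPolynomial.ringHom_ext (fun r => ?_) (fun x => ?_)
    · rw [RingHom.comp_apply, thS_C, thS_C, SF.mapR_cst]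
      rfl
    · rw [RingHom.comp_apply, thS_X, thS_X]
  exact congrFun (congrArg DFunLike.coe h1) p

theorem thS_pre {C' : Type*} [CommRing C'] (γ' : C' →+* C) (p : MvPolynomial σ C') :
    thS γ ϑ (MvPolynomial.map γ' p) = thS (γ.comp γ') ϑ p := by
  have h1 : (thS γ ϑ).comp (MvPolynomial.map γ') = thS (γ.comp γ') ϑ := by
    refine MvPolynomial.ringHom_ext (fun r => ?_) (fun x => ?_)
    · rw [RingHom.comp_apply, MvPolynomial.map_C, thS_C, thS_C]
      rfl
    · rw [RingHom.comp_apply, MvPolynomial.map_X, thS_X, thS_X]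
  exact congrFun (congrArg DFunLike.coe h1) p

theorem thS_empty {z : σ → A} (hz : ∀ x, ϑ x ∅ = algebraMap A (FF a b h A) (z x))
    (p : MvPolynomial σ C) :
    thS γ ϑ p ∅ = algebraMap A (FF a b h A) (p.eval₂ γ z) := by
  have h1 : (SF.ev0 (ι := Fin b ⊕ Fin a) (R := FF a b h A)).comp (thS γ ϑ) =
      (algebraMap A (FF a b h A)).comp (MvPolynomial.eval₂Hom γ z) := by
    refine MvPolynomial.ringHom_ext (fun r => ?_) (fun x => ?_)
    · rw [RingHom.comp_apply, thS_C, SF.ev0_apply, SF.cst_apply, if_pos rfl, RingHom.comp_apply,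
        MvPolynomial.eval₂Hom_C]
    · rw [RingHom.comp_apply, thS_X, SF.ev0_apply, hz, RingHom.comp_apply,
        MvPolynomial.eval₂Hom_X']
  exact congrFun (congrArg DFunLike.coe h1) p

end thS

section good
variable {K K' : Type*} [Field K] [Field K'] {ι U V : Type*} [DecidableEq ι] {Φ : Frame ι U V}

theorem HasRkR_push (φ : K →+* K') {M : U → V → K} {ρ : ℝ} (hM : HasRkR M ρ) :
    HasRkR (SF.push φ M) ρ := by
  obtain ⟨r, ⟨f, g, hfg⟩, hr⟩ := hM
  refine ⟨r, ⟨fun i u => φ (f i u), fun i v => φ (g i v), fun u v => ?_⟩, hr⟩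
  rw [SF.push_apply, hfg, map_sum]
  exact Finset.sum_congr rfl fun i _ => map_mul φ _ _

theorem Good_push (φ : K →+* K') {T : ℕ} {X : ℝ} {f : SF ι (U → V → K)} (hf : Good Φ T X f) :
    Good Φ T X (SF.mapR (SF.push φ) f) := fun B =>
  ⟨fun u v u' v' H => by
    rw [SF.mapR_apply, SF.push_apply, SF.push_apply, (hf B).1 u v u' v' H], fun hB => by
    rw [SF.mapR_apply]
    exact HasRkR_push φ ((hf B).2 hB)⟩

end good

/-- **All functions computed by a circuit.** -/
theorem circuit_good' {σ L K : Type*} [Fintype σ] [Field L] [CharZero L] [Field K] [Algebra L K]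
    {s Δ m : ℕ} {T : ℕ → ℕ} (hT0 : 2 ≤ T 0) (hTm : Monotone T) {ϑ : ℝ} (hϑ0 : 0 < ϑ)
    (hscale : ∀ k, k < 2 * Δ + 2 → ∃ z : ℝ, 0 ≤ z ∧ z ≤ 1 ∧ NumScale a b h (T k) z ∧
      z ^ (T (k + 1)) ≤ ϑ)
    (Θ : AF σ L →ₐ[L] SF (Fin b ⊕ Fin a) ((Ed a b h → Bool) → (Ed a b h → Bool) → K))
    (hc : ∀ g, ∃ c : K, Θ g ∅ = algebraMap K ((Ed a b h → Bool) → (Ed a b h → Bool) → K) c)
    (hvar : ∀ j, Good (bitFrame a b h) (T 0) ϑ
      (Θ (algebraMap (MvPolynomial σ L) (AF σ L) (MvPolynomial.X j))))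
    (C : Mul.Circuit σ L s Δ m) {f : AF σ L} (hf : C.Computes f) :
    Good (bitFrame a b h) (T (2 * Δ + 2)) (((Fintype.card σ : ℝ) + s + 1) *
      (cost (Fintype.card σ) s m (a + b) ^ (Δ + 1) * ϑ)) (Θ f) := by
  classical
  have hcard : Fintype.card (Fin b ⊕ Fin a) = a + b := by
    rw [Fintype.card_sum, Fintype.card_fin, Fintype.card_fin, add_comm]
  set nv := Fintype.card σ with hnv
  set c := cost nv s m (a + b) with hcdef
  have hc1 : 1 ≤ c := one_le_cost nv s m (a + b)
  have hn0 : (0:ℝ) ≤ nv := Nat.cast_nonneg nv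
  have hs0 : (0:ℝ) ≤ s := Nat.cast_nonneg s
  have hT1 : ∀ k, 1 ≤ T k := fun k => by
    have := hTm (Nat.zero_le k)
    omega
  have key : ∀ l : ℕ, l ≤ Δ → ∀ i', C.depth i' = l →
      Good (bitFrame a b h) (T (2 * l + 2)) (c ^ (l + 1) * ϑ) (Θ (C.g i')) := by
    intro l
    induction l using Nat.strong_induction_on with
    | _ l ih =>
      intro hl i' hi'
      have hXl : ϑ ≤ ((nv : ℝ) + s + 1) * (c ^ l * ϑ) := by
        have h1 : (1:ℝ) ≤ ((nv : ℝ) + s + 1) * (c ^ l) :=
          one_le_mul_of_one_le_of_one_le (by linarith) (one_le_pow₀ hc1)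
        nlinarith
      obtain ⟨z, hz0, hz1, hzs, hzT⟩ := hscale (2 * l) (by omega)
      obtain ⟨z', hz0', hz1', hzs', hzT'⟩ := hscale (2 * l + 1) (by omega)
      have h2 := Mul.gate_good (C.isGate i') Θ hc (T := T (2 * l)) (T' := T (2 * l + 1))
        (T'' := T (2 * l + 2)) (z := z) (z' := z') (X := ((nv : ℝ) + s + 1) * (c ^ l * ϑ))
        (ϑ := ϑ) (hTm (Nat.le_succ _)) (hTm (Nat.le_succ _)) (triv_bitFrame a b h) hz0 hz1 hz0'
        hz1' hϑ0.le hXl (scale_of_num hzs) (scale_of_num hzs') hzT hzT' (fun g hg => by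
          have h3 := Mul.lin_good (Φ := bitFrame a b h) (T := T (2 * l)) (X := c ^ l * ϑ)
            (hT1 _) (by positivity) (s := s) (g := C.g)
            (p := fun i'' => C.depth i'' < C.depth i') (Θ := Θ) (fun j => by
              refine (hvar j).mono (hTm (Nat.zero_le _)) ?_
              exact le_mul_of_one_le_left hϑ0.le (one_le_pow₀ hc1)) (fun i'' hi'' => by
              rw [hi'] at hi''
              refine (ih (C.depth i'') hi'' (hi''.le.trans hl) i'' rfl).mono (hTm (by omega)) ?_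
              refine mul_le_mul_of_nonneg_right ?_ hϑ0.le
              exact pow_le_pow_right₀ hc1 (by omega)) hg
          refine h3.mono le_rfl ?_
          exact mul_le_mul_of_nonneg_right (by linarith) (by positivity))
      have h5 : ((s : ℝ) + 1) * 2 ^ (2 * Fintype.card (Fin b ⊕ Fin a) ^ 2) *
          ((m : ℝ) + 1) ^ Fintype.card (Fin b ⊕ Fin a) *
          (((nv : ℝ) + s + 1) * (c ^ l * ϑ)) = c ^ (l + 1) * ϑ := by
        rw [hcard, pow_succ, hcdef, cost]
        ring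
      rw [h5] at h2
      exact h2
  have h1 : {f | ∃ i', True ∧ f = C.g i'} = Set.range C.g := by
    ext x
    constructor
    · rintro ⟨i, _, hi⟩
      exact ⟨i, hi.symm⟩
    · rintro ⟨i, hi⟩
      exact ⟨i, trivial, hi.symm⟩
  have h2 := Mul.lin_good (Φ := bitFrame a b h) (T := T (2 * Δ + 2)) (X := c ^ (Δ + 1) * ϑ)
    (hT1 _) (by positivity) (s := s) (g := C.g) (p := fun _ => True) (Θ := Θ) (f := f)
    (fun j => by
      refine (hvar j).mono (hTm (Nat.zero_le _)) ?_
      exact le_mul_of_one_le_left hϑ0.le (one_le_pow₀ hc1)) (fun i' _ => by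
      refine (key (C.depth i') (C.depth_le i') i' rfl).mono (hTm ?_) ?_
      · have := C.depth_le i'
        omega
      · refine mul_le_mul_of_nonneg_right ?_ hϑ0.le
        exact pow_le_pow_right₀ hc1 (Nat.succ_le_succ (C.depth_le i')))
    (by rw [h1]; exact hf)
  refine h2.mono le_rfl ?_
  exact mul_le_mul_of_nonneg_right (by linarith) (by positivity)

end Pool.Agent.Y531.Hlim
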