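import Pool.Agent.Y531.Hlim.Expand

/-!
# Expansion along the generator, and the root
-/

set_option autoImplicit false
set_option linter.unusedSectionVars false
set_option maxHeartbeats 1000000
set_option synthInstance.maxHeartbeats 200000

namespace Pool.Agent.Y531.Hlim

open Finset Pool.Agent.W942 Pool.Agent.Y531 Pool.Agent.Y531.Mul Pool.Agent.Y531.Hit

variable {a b h q : ℕ}

theorem zHom_C_C {E R : Type*} [Field E] [CommRing R] [Algebra E R]
    (A : Cell a b h × ZMod q → E) (Lc : Cell a b h → ZMod q) (ζ : R) (r : E) :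
    zHom R A Lc ζ (Polynomial.C (MvPolynomial.C r)) =
      SF.cst (algebraMap R (FF a b h R) (algebraMap E R r)) := by
  rw [zHom_C, thetaHom, MvPolynomial.algHom_C]
  rfl

section point
variable {E : Type*} [Field E] {n : ℕ} (A : Cell a b h × ZMod q → E) (Lc : Cell a b h → ZMod q)
  (t : ℕ) (pos : Cell a b h → ZMod q) (i : Fin n) (x : Fin n → E)

/-- The expansion of the coordinates. -/
noncomputable def leaf (R : Type*) [CommRing R] [Algebra E R] (ζ : R) (j : Fin n) :
    SF (Fin b ⊕ Fin a) (FF a b h R) :=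
  zHom R A Lc ζ (Hit.sub E t pos i x (MvPolynomial.X j))

theorem thS_leaf {F R : Type*} [Field F] [CommRing R] [Algebra E R] (κ₀ : F →+* E) (ζ : R)
    (p : MvPolynomial (Fin n) F) :
    thS ((algebraMap E R).comp κ₀) (leaf A Lc t pos i x R ζ) p =
      zHom R A Lc ζ (Hit.sub E t pos i x (MvPolynomial.map κ₀ p)) := by
  have h1 : thS ((algebraMap E R).comp κ₀) (leaf A Lc t pos i x R ζ) =
      ((zHom R A Lc ζ).comp (Hit.sub E t pos i x : MvPolynomial (Fin n) E →+* _)).comp
        (MvPolynomial.map κ₀) := by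
    refine MvPolynomial.ringHom_ext (fun r => ?_) (fun j => ?_)
    · rw [thS_C, RingHom.comp_apply, RingHom.comp_apply, MvPolynomial.map_C]
      show _ = zHom R A Lc ζ (Hit.sub E t pos i x (MvPolynomial.C (κ₀ r)))
      have h2 : Hit.sub E t pos i x (MvPolynomial.C (κ₀ r)) =
          Polynomial.C (MvPolynomial.C (κ₀ r)) := by
        rw [Hit.sub, MvPolynomial.algHom_C]
        rfl
      rw [h2, zHom_C_C]
    · rw [thS_X, RingHom.comp_apply, RingHom.comp_apply, MvPolynomial.map_X]
      rfl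
  exact congrFun (congrArg DFunLike.coe h1) p

theorem leaf_empty {R : Type*} [CommRing R] [Algebra E R] (ζ : R) (j : Fin n) :
    leaf A Lc t pos i x R ζ j ∅ = algebraMap R (FF a b h R)
      (((Hit.sub E t pos i x (MvPolynomial.X j)).map (MvPolynomial.eval A)).eval₂
        (algebraMap E R) ζ) := by
  rw [leaf, zHom_empty]
  rfl

/-- The coordinates are good. -/
theorem leaf_good' {R : Type*} [Field R] [Algebra E R] (hq : q.Prime)
    (hpos : Function.Injective pos) (hnq : n ≤ q ^ t) {T' : ℕ} (hT1 : 1 ≤ T') {z ϑ : ℝ}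
    (hz0 : 0 ≤ z) (hz1 : z ≤ 1) (hϑ : 0 ≤ ϑ) (hs : NumScale a b h 2 z) (hT' : z ^ T' ≤ ϑ) (ζ : R)
    (j : Fin n) :
    Good (bitFrame a b h) T' (((t : ℝ) + 1) ^ (a + b) * 2 ^ ((a + b) ^ 2) * ϑ)
      (leaf A (line q t pos (i : ℕ)) t pos i x R ζ j) := by
  classical
  have ht0 : (0:ℝ) ≤ t := Nat.cast_nonneg t
  rw [leaf, Hit.sub, MvPolynomial.aeval_X]
  by_cases hj : j < i
  · rw [if_pos hj, zHom_C]
    refine leaf_good A _ pos (j : ℕ) ?_ hz0 hz1 hϑ (scale_of_num hs) hT'
    refine line_meet hq pos hpos (lt_of_lt_of_le j.2 hnq) (lt_of_lt_of_le i.2 hnq) ?_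
    intro hji
    exact absurd hji (ne_of_lt hj)
  · rw [if_neg hj]
    by_cases hj' : j = i
    · rw [if_pos hj', zHom_X]
      exact Good.cst hT1 (by positivity) _
    · rw [if_neg hj', zHom_C, thetaHom, MvPolynomial.algHom_C]
      exact Good.cst hT1 (by positivity) (algebraMap E R (x j))

end point

/-- **The root.** -/
theorem root_step {E : Type*} [Field E] [CharZero E] (t : ℕ)
    (pos : Cell a b h → ZMod q) (i : ℕ) (A : Cell a b h × ZMod q → E)
    {P Q : Polynomial (MvPolynomial (Cell a b h × ZMod q) E)} {r : ℕ} (hr0 : r ≠ 0)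
    (hQ : P = (Polynomial.X - Polynomial.C (G E t pos i)) ^ r * Q)
    (hA1 : MvPolynomial.eval A (Q.eval (G E t pos i)) ≠ 0)
    {ζ : LaurentSeries E}
    (hζ : ζ = HahnSeries.C (MvPolynomial.eval A (G E t pos i)) + tau E)
    (i₀ : Fin b ⊕ Fin a) (L₁ : SF (Fin b ⊕ Fin a) (FF a b h (LaurentSeries E)))
    (hL₁ : SF.dd i₀ (zHom (LaurentSeries E) A (line q t pos i) ζ P) =
      L₁ * SF.sg i₀ (zHom (LaurentSeries E) A (line q t pos i) ζ P)) {ρ : ℝ}
    (hρ : HasRkR (L₁ (Finset.univ.erase i₀)) ρ) :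
    (2:ℝ) ^ (b * (a * h)) ≤ ((a:ℝ) + b) * ρ := by
  classical
  have hcard : Fintype.card (Fin b ⊕ Fin a) = a + b := by
    rw [Fintype.card_sum, Fintype.card_fin, Fintype.card_fin, add_comm]
  set G' := G E t pos i with hG'
  set Lc : Cell a b h → ZMod q := line q t pos i with hLc
  set g₀ : E := MvPolynomial.eval A G' with hg₀
  set B : Finset (Fin b ⊕ Fin a) := Finset.univ.erase i₀ with hB
  have hBi : i₀ ∉ B := Finset.notMem_erase _ _
  have hBins : insert i₀ B = Finset.univ := Finset.insert_erase (Finset.mem_univ _)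
  have hBc : B.card + 1 = a + b := by
    rw [← hcard, ← Finset.card_univ, ← hBins, Finset.card_insert_of_notMem hBi]
  set ψ : SF (Fin b ⊕ Fin a) ((Ed a b h → Bool) → (Ed a b h → Bool) → E) :=
    thetaHom E A Lc G' - SF.cst (fun _ _ => g₀) with hψ
  have hψ0 : ψ ∅ = 0 := by
    rw [hψ, SF.sub_def, thetaHom_empty, SF.cst_apply, if_pos rfl]
    funext u v
    show algebraMap E E (MvPolynomial.eval A G') - g₀ = 0
    rw [Algebra.algebraMap_self_apply, sub_self]
  set ζO : PowerSeries E := PowerSeries.C g₀ + PowerSeries.X with hζO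
  have hζO' : psHom E ζO = ζ := by
    rw [hζO, map_add, hζ]
    have h1 : psHom E (PowerSeries.C g₀) = HahnSeries.C g₀ := HahnSeries.ofPowerSeries_C g₀
    have h2 : psHom E PowerSeries.X = tau E := HahnSeries.ofPowerSeries_X
    rw [h1, h2]
  have hPsf : zHom (LaurentSeries E) A Lc ζ P =
      (SF.cst (fun _ _ => tau E) - SF.mapR (SF.push HahnSeries.C) ψ) ^ r *
      SF.mapR (SF.push (HahnSeries.ofPowerSeries ℤ E)) (zHom (PowerSeries E) A Lc ζO Q) := by
    rw [hQ, map_mul, map_pow, map_sub, zHom_X, zHom_C]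
    have h1 : SF.mapR (SF.push (HahnSeries.ofPowerSeries ℤ E))
        (zHom (PowerSeries E) A Lc ζO Q) = zHom (LaurentSeries E) A Lc ζ Q := by
      rw [← hζO', ← zHom_map A Lc ζO (psHom E) Q]
      rfl
    have h2 : SF.mapR (SF.push HahnSeries.C) (thetaHom E A Lc G') =
        thetaHom (LaurentSeries E) A Lc G' := by
      rw [← thetaHom_map A Lc (Algebra.ofId E (LaurentSeries E)) G']
      have h3 : (HahnSeries.C : E →+* LaurentSeries E) =
          ((Algebra.ofId E (LaurentSeries E) : E →ₐ[E] LaurentSeries E) :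
            E →+* LaurentSeries E) := by
        refine RingHom.ext fun r => ?_
        exact (algMap_eq r).symm
      rw [h3]
    rw [h1, hψ, map_sub, h2, SF.mapR_cst]
    congr 2
    have h3 : (SF.cst (fun _ _ => ζ) : SF (Fin b ⊕ Fin a)
        ((Ed a b h → Bool) → (Ed a b h → Bool) → LaurentSeries E)) =
        SF.cst (fun _ _ => tau E) + SF.cst (SF.push HahnSeries.C (fun _ _ => g₀)) := by
      rw [← map_add]
      congr 1
      funext u v
      show ζ = tau E + HahnSeries.C g₀
      rw [hζ, add_comm]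
    rw [h3]
    ring
  have hroot := root_rk ψ hψ0 i₀ (zHom (PowerSeries E) A Lc ζO Q) (fun u v => by
    rw [zHom_empty]
    refine isUnit_eval₂ ?_
    intro h0
    apply hA1
    have h1 : MvPolynomial.eval A (Q.eval G') =
        (Q.map (MvPolynomial.eval A)).eval (MvPolynomial.eval A G') := by
      rw [Polynomial.eval_map, Polynomial.eval₂_at_apply]
    rw [h1]
    exact h0) r hr0 (zHom (LaurentSeries E) A Lc ζ P) L₁ hL₁ hPsf B hBi hρ
  rw [hBins] at hroot
  obtain ⟨s, hs, hs'⟩ := hroot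
  have hid : HasRk (fun u v : Ed a b h → Bool => if u = v then (1 : E) else 0) s := by
    refine hs.congr fun u v => ?_
    have hne : (Finset.univ : Finset (Fin b ⊕ Fin a)) ≠ ∅ :=
      Finset.ne_empty_of_mem (Finset.mem_univ i₀)
    rw [hψ, SF.sub_def, SF.cst_apply, if_neg hne, sub_zero, hG', hLc, thetaHom_G_univ]
  have hle := card_le_of_id hid
  have hcE : Fintype.card (Ed a b h → Bool) = 2 ^ (b * (a * h)) := by
    rw [Fintype.card_fun, Fintype.card_bool, Fintype.card_prod, Fintype.card_prod,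
      Fintype.card_fin, Fintype.card_fin, Fintype.card_fin]
  rw [hcE] at hle
  have h1 : ((2 ^ (b * (a * h)) : ℕ) : ℝ) ≤ s := by exact_mod_cast hle
  rw [Nat.cast_pow, Nat.cast_ofNat] at h1
  refine (h1.trans hs').trans (le_of_eq ?_)
  congr 1
  have h3 : ((B.card + 1 : ℕ) : ℝ) = ((a + b : ℕ) : ℝ) := by rw [hBc]
  push_cast at h3
  exact h3

end Pool.Agent.Y531.Hlim
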