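import Pool.Agent.Y531.Mul.Perturb

/-!
# A generic point near an arbitrary point
-/

set_option autoImplicit false
set_option linter.unusedSectionVars false
set_option maxHeartbeats 1000000
set_option synthInstance.maxHeartbeats 200000

namespace Pool.Agent.Y531.Hlim

open Finset Pool.Agent.W942 Pool.Agent.Y531 Pool.Agent.Y531.Mul

/-- The field of rational functions. -/
abbrev RG (σ F : Type*) [Field F] : Type _ := FractionRing (MvPolynomial σ F)

section
variable {σ F : Type*} [Field F]

/-- The variables as rational functions. -/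
noncomputable def xg (σ F : Type*) [Field F] (j : σ) : RG σ F :=
  algebraMap (MvPolynomial σ F) (RG σ F) (MvPolynomial.X j)

theorem eval_xg (p : MvPolynomial σ F) :
    p.eval₂ (algebraMap F (RG σ F)) (xg σ F) = algebraMap _ (RG σ F) p := by
  have h1 : MvPolynomial.eval₂Hom (algebraMap F (RG σ F)) (xg σ F) =
      algebraMap (MvPolynomial σ F) (RG σ F) := by
    refine MvPolynomial.ringHom_ext (fun r => ?_) (fun x => ?_)
    · rw [MvPolynomial.eval₂Hom_C,
        IsScalarTower.algebraMap_apply F (MvPolynomial σ F) (RG σ F)]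
      rfl
    · rw [MvPolynomial.eval₂Hom_X']; rfl
  exact congrFun (congrArg DFunLike.coe h1) p

theorem xg_ne_zero (j : σ) : xg σ F j ≠ 0 := by
  intro h0
  have h1 : (MvPolynomial.X j : MvPolynomial σ F) = 0 :=
    IsFractionRing.injective (MvPolynomial σ F) (RG σ F) (by rw [map_zero]; exact h0)
  exact MvPolynomial.X_ne_zero j h1

/-- The top coefficient of a product of powers of linear polynomials. -/
theorem coeff_prod_lin {E : Type*} [Field E] (c x : σ → E) (hx : ∀ j, x j ≠ 0) (μ : σ →₀ ℕ) :
    (∏ j ∈ μ.support, (Polynomial.C (c j) + Polynomial.X * Polynomial.C (x j)) ^ μ j).natDegree =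
      μ.degree ∧
    (∏ j ∈ μ.support,
      (Polynomial.C (c j) + Polynomial.X * Polynomial.C (x j)) ^ μ j).leadingCoeff =
      ∏ j ∈ μ.support, x j ^ μ j := by
  have h1 : ∀ j, Polynomial.C (c j) + Polynomial.X * Polynomial.C (x j) =
      Polynomial.C (x j) * Polynomial.X + Polynomial.C (c j) := fun j => by ring
  have h2 : ∀ j, (Polynomial.C (c j) + Polynomial.X * Polynomial.C (x j)).natDegree = 1 := by
    intro j
    rw [h1, Polynomial.natDegree_linear (hx j)]
  have h3 : ∀ j, (Polynomial.C (c j) + Polynomial.X * Polynomial.C (x j)).leadingCoeff = x j := by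
    intro j
    rw [h1, Polynomial.leadingCoeff_linear (hx j)]
  have h4 : ∀ j, Polynomial.C (c j) + Polynomial.X * Polynomial.C (x j) ≠ 0 := by
    intro j h0
    have := h2 j
    rw [h0, Polynomial.natDegree_zero] at this
    omega
  constructor
  · rw [Polynomial.natDegree_prod _ _ fun j _ => pow_ne_zero _ (h4 j)]
    rw [Finsupp.degree_apply]
    refine Finset.sum_congr rfl fun j _ => ?_
    rw [Polynomial.natDegree_pow, h2, mul_one]
  · rw [Polynomial.leadingCoeff_prod]
    refine Finset.prod_congr rfl fun j _ => ?_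
    rw [Polynomial.leadingCoeff_pow, h3]

/-- **The point `c + δ x` is generic.** -/
theorem eval_ne_zero_near {E : Type*} [Field E] (γ : F →+* E) (c x : σ → E)
    (hx : ∀ q : MvPolynomial σ F, q ≠ 0 → q.eval₂ γ x ≠ 0)
    (p : MvPolynomial σ F) (hp : p ≠ 0) :
    p.eval₂ (HahnSeries.C.comp γ : F →+* LaurentSeries E)
      (fun j => HahnSeries.C (c j) + tau E * HahnSeries.C (x j)) ≠ 0 := by
  classical
  have hx0 : ∀ j, x j ≠ 0 := by
    intro j h0
    refine hx (MvPolynomial.X j) (MvPolynomial.X_ne_zero j) ?_
    rw [MvPolynomial.eval₂_X, h0]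
  -- over the polynomials
  set P : Polynomial E := p.eval₂ (Polynomial.C.comp γ)
    (fun j => Polynomial.C (c j) + Polynomial.X * Polynomial.C (x j)) with hP
  have h1 : P.coeff p.totalDegree = (MvPolynomial.homogeneousComponent p.totalDegree p).eval₂ γ x := by
    rw [hP, MvPolynomial.eval₂_eq, Polynomial.finsetSum_coeff,
      MvPolynomial.homogeneousComponent_apply, MvPolynomial.eval₂_sum, Finset.sum_filter]
    refine Finset.sum_congr rfl fun μ hμ => ?_
    obtain ⟨h2, h3⟩ := coeff_prod_lin c x hx0 μ
    have h4 : μ.degree ≤ p.totalDegree := by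
      have := MvPolynomial.le_totalDegree hμ
      rwa [Finsupp.degree_apply]
    rw [RingHom.comp_apply, Polynomial.coeff_C_mul]
    by_cases h5 : μ.degree = p.totalDegree
    · rw [if_pos h5, MvPolynomial.eval₂_monomial, Finsupp.prod, ← h3, Polynomial.leadingCoeff, h2,
        h5]
    · rw [if_neg h5, Polynomial.coeff_eq_zero_of_natDegree_lt, mul_zero]
      rw [h2]
      omega
  have h2 : MvPolynomial.homogeneousComponent p.totalDegree p ≠ 0 := by
    intro h0
    obtain ⟨μ, hμ, hμ'⟩ : ∃ μ ∈ p.support, μ.degree = p.totalDegree := by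
      have h3 : p.support.Nonempty := by
        rw [Finset.nonempty_iff_ne_empty]
        exact fun h => hp (MvPolynomial.support_eq_empty.1 h)
      obtain ⟨μ, hμ, hμ'⟩ := Finset.exists_mem_eq_sup p.support h3
        (fun s => s.sum fun _ e => e)
      refine ⟨μ, hμ, ?_⟩
      rw [MvPolynomial.totalDegree, hμ', Finsupp.degree_apply]
      rfl
    have h3 := MvPolynomial.coeff_homogeneousComponent p.totalDegree p μ
    rw [h0, MvPolynomial.coeff_zero, if_pos hμ'] at h3
    exact (MvPolynomial.mem_support_iff.1 hμ) h3.symm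
  have hP0 : P ≠ 0 := by
    intro h0
    rw [h0, Polynomial.coeff_zero] at h1
    exact hx _ h2 h1.symm
  -- to the Laurent series
  let ev : Polynomial E →+* LaurentSeries E :=
    (HahnSeries.ofPowerSeries ℤ E).comp (Polynomial.coeToPowerSeries.ringHom)
  have hinj : Function.Injective ev := by
    intro x y hxy
    exact Polynomial.coe_injective E (HahnSeries.ofPowerSeries_injective hxy)
  have hC : ∀ r : E, ev (Polynomial.C r) = HahnSeries.C r := by
    intro r
    simp only [ev]
    rw [RingHom.comp_apply, Polynomial.coeToPowerSeries.ringHom_apply, Polynomial.coe_C,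
      HahnSeries.ofPowerSeries_C]
  have hX : ev Polynomial.X = tau E := by
    simp only [ev]
    rw [RingHom.comp_apply, Polynomial.coeToPowerSeries.ringHom_apply, Polynomial.coe_X,
      HahnSeries.ofPowerSeries_X]
    rfl
  have h3 : ev P = p.eval₂ (HahnSeries.C.comp γ : F →+* LaurentSeries E)
      (fun j => HahnSeries.C (c j) + tau E * HahnSeries.C (x j)) := by
    rw [hP, MvPolynomial.eval₂_comp_left ev]
    congr 1
    · refine RingHom.ext fun r => ?_
      exact hC (γ r)
    · funext j
      show ev (Polynomial.C (c j) + Polynomial.X * Polynomial.C (x j)) = _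
      rw [map_add, map_mul, hC, hC, hX]
  rw [← h3]
  intro h0
  exact hP0 (hinj (by rw [h0, map_zero]))

end

end Pool.Agent.Y531.Hlim
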