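import Pool.Agent.Y531.Hlim.Tame

/-!
# The points of the hitting sets
-/

set_option autoImplicit false

namespace Pool.Agent.Y531.Hlim

open MvPolynomial Pool.Agent.Y531.Mul Pool.Agent.Y531.Hit

universe u

/-- The number of cells. -/
def cells (a b k N : ℕ) : ℕ := Fintype.card (Cell a b (blockLen a b k N))

/-- `q` is a prime number between the number of cells and twice this number. -/
def Fits (a b k N q : ℕ) : Prop := q.Prime ∧ cells a b k N ≤ q ∧ q ≤ 2 * cells a b k N

/-- The cells are numbered by elements of `ZMod q`. -/
abbrev Numbering (a b k N q : ℕ) : Type := Cell a b (blockLen a b k N) → ZMod q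

/-- The seeds: a natural number for each cell and each element of `ZMod q`. -/
abbrev Seed (a b k N q : ℕ) : Type := Cell a b (blockLen a b k N) × ZMod q → ℕ

/-- The point of the generator with the seed `y`. -/
def point {a b k N q : ℕ} (pos : Numbering a b k N q) (y : Seed a b k N q) (n : ℕ) (F : Type*)
    [Field F] : Fin n → F := fun j => ((gen q (2 * k + 1) pos y j : ℕ) : F)

theorem exists_fits {a b : ℕ} (hb : 0 < b) (k N : ℕ) : ∃ q, Fits a b k N q := by
  have h0 : Fintype.card (Cell a b (blockLen a b k N)) ≠ 0 := by
    have h1 : 0 < b * 2 ^ (a * blockLen a b k N) := by positivity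
    rw [card_cell]
    omega
  obtain ⟨q, hq, hq1, hq2⟩ := Nat.exists_prime_lt_and_le_two_mul _ h0
  exact ⟨q, hq, hq1.le, hq2⟩

end Pool.Agent.Y531.Hlim
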