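import Pool.Agent.Y531.Hlim.Delta
import Pool.Agent.Y531.Hlim.Leaf

/-!
# The rank inequality for a limit which vanishes on the generator
-/

set_option autoImplicit false
set_option linter.unusedSectionVars false
set_option maxHeartbeats 2000000
set_option synthInstance.maxHeartbeats 200000

namespace Pool.Agent.Y531.Hlim

open Finset Pool.Agent.W942 Pool.Agent.Y531 Pool.Agent.Y531.Mul Pool.Agent.Y531.Hit

variable {a b h q : ℕ}

/-- The generator over a larger field. -/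
theorem aeval_G_map {F E : Type*} [Field F] [Field E] (κ₀ : F →+* E) {n : ℕ} (t : ℕ)
    (pos : Cell a b h → ZMod q) (g : MvPolynomial (Fin n) F) :
    MvPolynomial.aeval (fun j : Fin n => G E t pos j) (MvPolynomial.map κ₀ g) =
      MvPolynomial.map κ₀ (MvPolynomial.aeval (fun j : Fin n => G F t pos j) g) := by
  rw [MvPolynomial.aeval_def, MvPolynomial.eval₂_map, MvPolynomial.aeval_def,
    MvPolynomial.eval₂_comp_left (MvPolynomial.map κ₀)]
  congr 1
  · refine RingHom.ext fun r => ?_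
    show algebraMap E _ (κ₀ r) = MvPolynomial.map κ₀ (MvPolynomial.C r)
    rw [MvPolynomial.map_C]
    rfl
  · funext j
    show G E t pos j = MvPolynomial.map κ₀ (G F t pos j)
    rw [G, G, gen, gen, map_wordSum (MvPolynomial.map κ₀)]
    congr 1
    funext c
    rw [MvPolynomial.map_X]

/-- **The rank inequality.** -/
theorem lim_rank {F E K : Type*} [Field F] [CharZero F] [Field E] [Field K] [IsAlgClosed K]
    {n s Δ m t L : ℕ} {T : ℕ → ℕ} (κ₀ : F →+* E) (xE : Fin n → E)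
    (hxE : ∀ p : MvPolynomial (Fin n) F, p ≠ 0 → p.eval₂ κ₀ xE ≠ 0)
    (jK : LaurentSeries (LaurentSeries (LaurentSeries E)) →+* K)
    (hq : q.Prime) (ha : 0 < a) (hT0 : T 0 = 2) (hTm : Monotone T) (hTK : T (2 * Δ + 4) ≤ a + b)
    (hscale : ∀ k, k < 2 * Δ + 4 → ∃ z : ℝ, 0 ≤ z ∧ z ≤ 1 ∧ NumScale a b h (T k) z ∧
      z ^ (T (k + 1)) ≤ ((2:ℝ) ^ (a * h * L))⁻¹)
    (pos : Cell a b h → ZMod q) (hpos : Function.Injective pos) (hnq : n ≤ q ^ t)
    (C : Mul.Circuit (Fin n) (LaurentSeries F) s Δ m)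
    (f₃ h₃ : MvPolynomial (Fin n) (PowerSeries F)) {R₀ : AF (Fin n) (LaurentSeries F)}
    (hC : C.Computes R₀)
    (hR : R₀ * algebraMap (MvPolynomial (Fin n) (LaurentSeries F)) _
        (MvPolynomial.map (HahnSeries.ofPowerSeries ℤ F) h₃) =
      algebraMap (MvPolynomial (Fin n) (LaurentSeries F)) _
        (MvPolynomial.map (HahnSeries.ofPowerSeries ℤ F) f₃))
    {g : MvPolynomial (Fin n) F}
    (hg : MvPolynomial.map PowerSeries.constantCoeff f₃ =
      g * MvPolynomial.map PowerSeries.constantCoeff h₃)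
    (hh : MvPolynomial.map PowerSeries.constantCoeff h₃ ≠ 0) (hg0 : g ≠ 0)
    (hzero : MvPolynomial.aeval (fun j : Fin n => G F t pos j) g = 0) :
    (2:ℝ) ^ (a * h * L) ≤ ((a:ℝ) + b) * 2 ^ ((a + b) ^ 2) * (((n:ℝ) + s + 1) *
      (cost n s m (a + b) ^ (Δ + 1) * (((t:ℝ) + 1) ^ (a + b) * 2 ^ ((a + b) ^ 2)))) := by
  classical
  have hchE : CharZero E := charZero_of_injective_ringHom κ₀.injective
  -- the polynomial over `E`
  have hgE0 : MvPolynomial.map κ₀ g ≠ 0 := by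
    intro h0
    apply hg0
    apply MvPolynomial.map_injective κ₀ κ₀.injective
    rw [map_zero]
    exact h0
  have hzeroE : MvPolynomial.aeval (fun j : Fin n => G E t pos j) (MvPolynomial.map κ₀ g) = 0 := by
    rw [aeval_G_map, hzero, map_zero]
  obtain ⟨i, x, hP0, hPr⟩ := exists_hybrid pos hgE0 hzeroE
  set P := Hit.sub E t pos i x (MvPolynomial.map κ₀ g) with hP
  set G' := G E t pos (i : ℕ) with hG'
  obtain ⟨Q, hQ, hQnd⟩ := Polynomial.exists_eq_pow_rootMultiplicity_mul_and_not_dvd P hP0 G'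
  have hr0 : P.rootMultiplicity G' ≠ 0 := by
    have := (Polynomial.rootMultiplicity_pos hP0).2 hPr
    omega
  have hQev : Q.eval G' ≠ 0 := fun h => hQnd (Polynomial.dvd_iff_isRoot.2 h)
  -- the base point
  obtain ⟨A', hA'⟩ := exists_int_point _ hQev
  set A : Cell a b h × ZMod q → E := fun y => (A' y : E) with hA
  have hA1 : MvPolynomial.eval A (Q.eval G') ≠ 0 := hA'
  set g₀ : E := MvPolynomial.eval A G' with hg₀
  set ζ : LaurentSeries E := HahnSeries.C g₀ + tau E with hζ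
  have hcE : (P.map (MvPolynomial.eval A)).eval₂ (algebraMap E (LaurentSeries E)) ζ ≠ 0 := by
    refine eval₂_ne_zero ?_ g₀
    rw [hQ, Polynomial.map_mul, Polynomial.map_pow, Polynomial.map_sub, Polynomial.map_X,
      Polynomial.map_C]
    refine mul_ne_zero (pow_ne_zero _ (Polynomial.X_sub_C_ne_zero _)) ?_
    intro h0
    apply hA1
    have h1 : MvPolynomial.eval A (Q.eval G') =
        (Q.map (MvPolynomial.eval A)).eval (MvPolynomial.eval A G') := by
      rw [Polynomial.eval_map, Polynomial.eval₂_at_apply]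
    rw [h1, h0, Polynomial.eval_zero]
  -- the expansion
  have hth := thS_leaf A (line q t pos (i : ℕ)) t pos i x κ₀ ζ g
  have hleaf0 := leaf_empty A (line q t pos (i : ℕ)) t pos i x ζ
  set c₁ : Fin n → LaurentSeries E := fun j =>
    ((Hit.sub E t pos i x (MvPolynomial.X j)).map (MvPolynomial.eval A)).eval₂
      (algebraMap E (LaurentSeries E)) ζ with hc₁
  have hgc : g.eval₂ ((algebraMap E (LaurentSeries E)).comp κ₀) c₁ ≠ 0 := by
    have h1 := thS_empty ((algebraMap E (LaurentSeries E)).comp κ₀)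
      (leaf A (line q t pos (i : ℕ)) t pos i x (LaurentSeries E) ζ) (z := c₁) hleaf0 g
    rw [hth, ← hP, zHom_empty] at h1
    have h2 := congrFun (congrFun h1 (fun _ => true)) (fun _ => true)
    have h3 : (P.map (MvPolynomial.eval A)).eval₂ (algebraMap E (LaurentSeries E)) ζ =
        g.eval₂ ((algebraMap E (LaurentSeries E)).comp κ₀) c₁ := h2
    rw [← h3]
    exact hcE
  have hyE : ∀ p : MvPolynomial (Fin n) F, p ≠ 0 →
      p.eval₂ ((algebraMap E (LaurentSeries E)).comp κ₀)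
        (fun j => (HahnSeries.C (xE j) : LaurentSeries E)) ≠ 0 := by
    intro p hp h0
    apply hxE p hp
    have h2 : p.eval₂ ((algebraMap E (LaurentSeries E)).comp κ₀)
        (fun j => (HahnSeries.C (xE j) : LaurentSeries E)) =
        HahnSeries.C (p.eval₂ κ₀ xE) := by
      rw [MvPolynomial.eval₂_comp_left (HahnSeries.C : E →+* LaurentSeries E)]
      congr 1
      refine RingHom.ext fun r => ?_
      exact algMap_eq (κ₀ r)
    rw [h2] at h0
    exact HahnSeries.C_injective (h0.trans (map_zero HahnSeries.C).symm)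
  set ϑ : ℝ := ((2:ℝ) ^ (a * h * L))⁻¹ with hϑ
  have hϑ0 : 0 < ϑ := by positivity
  set κ : ℝ := ((t:ℝ) + 1) ^ (a + b) * 2 ^ ((a + b) ^ 2) with hκ
  have ht0 : (0:ℝ) ≤ t := Nat.cast_nonneg t
  have hκ1 : 1 ≤ κ := one_le_mul_of_one_le_of_one_le (one_le_pow₀ (by linarith))
    (one_le_pow₀ (by norm_num))
  have hκϑ : ϑ ≤ κ * ϑ := le_mul_of_one_le_left hϑ0.le hκ1
  have hT1 : 2 ≤ T 1 := by
    have := hTm (Nat.zero_le 1)
    omega
  obtain ⟨z, hz0, hz1, hzs, hzT⟩ := hscale 0 (by omega)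
  rw [hT0] at hzs
  have hvar : ∀ j, Good (bitFrame a b h) (T 1) (κ * ϑ)
      (leaf A (line q t pos (i : ℕ)) t pos i x (LaurentSeries E) ζ j) := fun j =>
    leaf_good' A t pos i x hq hpos hnq (le_trans one_le_two hT1) hz0 hz1 hϑ0.le hzs hzT ζ j
  let i₀ : Fin b ⊕ Fin a := Sum.inr ⟨0, ha⟩
  obtain ⟨L₁, hL₁, hrk⟩ := delta_step (T := fun k => T (k + 1)) (ϑ := κ * ϑ) (Δ := Δ) jK
    ((algebraMap E (LaurentSeries E)).comp κ₀)
    (leaf A (line q t pos (i : ℕ)) t pos i x (LaurentSeries E) ζ) c₁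
    (fun j => (HahnSeries.C (xE j) : LaurentSeries E)) hleaf0 hyE (by exact hT1)
    (fun k l hkl => hTm (Nat.succ_le_succ hkl)) (by positivity) (by exact hTK)
    (fun k hk => by
      obtain ⟨z, hz0, hz1, hzs, hzT⟩ := hscale (k + 1) (by omega)
      exact ⟨z, hz0, hz1, hzs, hzT.trans hκϑ⟩) hvar C f₃ h₃ hC hR hg hh hgc i₀
  rw [hth, ← hP] at hL₁
  rw [Fintype.card_fin] at hrk
  have hroot := root_step t pos (i : ℕ) A hr0 hQ hA1 hζ i₀ L₁ hL₁ hrk
  set c := cost n s m (a + b) with hc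
  set X : ℝ := ((n : ℝ) + s + 1) * (c ^ (Δ + 1) * (κ * ϑ)) with hX
  have hpos2 : (0:ℝ) < 2 ^ (b * (a * h)) := by positivity
  have h5 : (1:ℝ) ≤ ((a:ℝ) + b) * (2 ^ ((a + b) ^ 2) * X) := by
    by_contra hcon
    rw [not_le] at hcon
    have h6 : ((a:ℝ) + b) * (2 ^ ((a + b) ^ 2) * X * 2 ^ (b * (a * h))) =
        (((a:ℝ) + b) * (2 ^ ((a + b) ^ 2) * X)) * 2 ^ (b * (a * h)) := by ring
    rw [h6] at hroot
    nlinarith
  have h7 : (0:ℝ) < 2 ^ (a * h * L) := by positivity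
  have h8 : ((a:ℝ) + b) * (2 ^ ((a + b) ^ 2) * X) = (((a:ℝ) + b) * 2 ^ ((a + b) ^ 2) *
      (((n:ℝ) + s + 1) * (c ^ (Δ + 1) * κ))) / 2 ^ (a * h * L) := by
    rw [hX, hϑ]
    field_simp
  rw [h8, le_div_iff₀ h7, one_mul] at h5
  exact h5

end Pool.Agent.Y531.Hlim
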