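import Pool.Agent.Y531.Hlim.Ranks

/-!
# The generator finds points of maximal rank
-/

set_option autoImplicit false
set_option linter.unusedSectionVars false
set_option maxHeartbeats 2000000
set_option synthInstance.maxHeartbeats 200000

namespace Pool.Agent.Y531.Hlim

open Finset MvPolynomial Matrix Pool.Agent.W942 Pool.Agent.Y531 Pool.Agent.Y531.Mul
  Pool.Agent.Y531.Hit

universe u

/-- The rows of `A` have the addresses `u`, the columns have the addresses `v`, words of length at
most `Δ`; at most `b` rows and at most `b` columns share an address; an entry of `A` may be nonzero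
only if one of the addresses of its row and of its column is an initial segment of the other. -/
def RectForest {R : Type*} [Zero R] {r₁ r₂ : ℕ} (Δ b : ℕ) (u : Fin r₁ → List ℕ)
    (v : Fin r₂ → List ℕ) (A : Matrix (Fin r₁) (Fin r₂) R) : Prop :=
  ((∀ i, (u i).length ≤ Δ) ∧ ∀ j, (v j).length ≤ Δ) ∧
    ((∀ l, (Finset.univ.filter fun i => u i = l).card ≤ b) ∧
      ∀ l, (Finset.univ.filter fun j => v j = l).card ≤ b) ∧
    ∀ i j, A i j ≠ 0 → u i <+: v j ∨ v j <+: u i

section defs
variable {σ : Type} {F : Type u} [Field F]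

/-- `M = P * A₀ * Q` with matrices of polynomials `P`, `Q` which are invertible over the polynomials,
where `A₀` has entries of degree at most `d` and is the limit for `ε → 0`, entry by entry, of matrices
over `F((ε))[x]` which have elimination forests of height `Δ` with at most `b` rows and at most `b`
columns of one address, `b ^ q ≤ n`, and whose entries are computed by a circuit of depth `Δ` with at
most `n ^ c` gates of arity `m`, `m ^ q ≤ n`. -/
def HiddenForest (n c Δ q d : ℕ) {r₁ r₂ : ℕ} (M : Matrix (Fin r₁) (Fin r₂) (MvPolynomial σ F)) :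
    Prop :=
  ∃ (b : ℕ) (u : Fin r₁ → List ℕ) (v : Fin r₂ → List ℕ)
    (A : Matrix (Fin r₁) (Fin r₂) (MvPolynomial σ (LaurentSeries F)))
    (P : Matrix (Fin r₁) (Fin r₁) (MvPolynomial σ F))
    (A₀ : Matrix (Fin r₁) (Fin r₂) (MvPolynomial σ F))
    (Q : Matrix (Fin r₂) (Fin r₂) (MvPolynomial σ F)),
    b ^ q ≤ n ∧ RectForest Δ b u v A ∧ EntriesIn n c Δ q A ∧
    (∀ i j, TendsTo (A i j) (A₀ i j) ∧ (A₀ i j).totalDegree ≤ d) ∧
    (IsUnit P.det ∧ IsUnit Q.det) ∧ M = P * A₀ * Q

end defs

/-- **Points of maximal rank.** -/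
theorem rank_hits (c Δ k : ℕ) (hk : k ≠ 0) : ∃ a b q₀ N₀ : ℕ, 0 < a ∧ 0 < b ∧
    ∀ N, N₀ ≤ N → ∀ q : ℕ, q.Prime → Fintype.card (Cell a b (blockLen a b k N)) ≤ q →
    q ≤ 2 * Fintype.card (Cell a b (blockLen a b k N)) →
    (Fintype.card (Cell a b (blockLen a b k N)) * q) ^ k ≤ N ∧
    ∀ pos : Cell a b (blockLen a b k N) → ZMod q, Function.Injective pos →
    ∀ (F : Type u) [Field F] [CharZero F] (n r₁ r₂ d : ℕ), n ≤ N → r₁ ≤ N ^ c → r₂ ≤ N ^ c →
    ∀ M : Matrix (Fin r₁) (Fin r₂) (MvPolynomial (Fin n) F), HiddenForest N c Δ q₀ d M →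
      ∃ y : Cell a b (blockLen a b k N) × ZMod q → ℕ, (∀ x, y x ≤ min r₁ r₂ * d) ∧
        (M.map (eval fun j : Fin n => ((gen q (2 * k + 1) pos y j : ℕ) : F))).rank =
          prank M := by
  classical
  obtain ⟨a, b, q₀, N₀, ha, hb, H⟩ := matrix_hits.{u} (c + 1) Δ k hk
  refine ⟨a, b, 2 * q₀ + 1, N₀ + 4 ^ q₀ + 2, ha, hb, ?_⟩
  intro N hN q hq hq1 hq2
  have hn0 : N₀ ≤ N := (Nat.le_add_right _ _).trans ((Nat.le_add_right _ _).trans hN)
  have hn4 : 4 ^ q₀ ≤ N := (Nat.le_add_left _ _).trans ((Nat.le_add_right _ _).trans hN)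
  have hn2 : 2 ≤ N := (Nat.le_add_left _ _).trans hN
  obtain ⟨h1, H⟩ := H N hn0 q hq hq1 hq2
  refine ⟨h1, ?_⟩
  rintro pos hpos F _ _ n r₁ r₂ d hnN hr₁ hr₂ M ⟨b', u, v, A, P, A₀, Q, hb',
    ⟨⟨hu, hv⟩, ⟨hub, hvb⟩, hst⟩, ⟨s, m, C₀, hs, hm, hC₀⟩, hlim, ⟨hP, hQ⟩, hM⟩
  have : NeZero q := ⟨hq.ne_zero⟩
  obtain ⟨r, I, J, hr, hI, hJ, hdet⟩ := exists_minor_poly A₀
  have hrank : prank M = r := by
    rw [hr, hM]
    exact rank_equiv _ P A₀ Q hP hQ
  have hr1 : r ≤ r₁ := by
    have := Fintype.card_le_of_injective I hI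
    rwa [Fintype.card_fin, Fintype.card_fin] at this
  have hr2 : r ≤ r₂ := by
    have := Fintype.card_le_of_injective J hJ
    rwa [Fintype.card_fin, Fintype.card_fin] at this
  -- the doubled minor
  choose A₃ hA₃ hA₃' using fun i j => (hlim i j).1
  have hA₃M : (Matrix.of A₃).map (MvPolynomial.map (HahnSeries.ofPowerSeries ℤ F)) = A := by
    ext1 i j
    exact hA₃ i j
  have hA₃M' : (Matrix.of A₃).map (MvPolynomial.map (PowerSeries.constantCoeff (R := F))) = A₀ := by
    ext1 i j
    exact hA₃' i j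
  obtain ⟨s₁, hs₁, hdbl⟩ := det_dbl (A₀.submatrix I J)
  have hs₁0 : s₁ ≠ 0 := by
    rintro rfl
    rw [mul_zero] at hs₁
    exact zero_ne_one hs₁
  have hf0 : (dbl (A₀.submatrix I J)).det ≠ 0 := by
    rw [hdbl]
    exact mul_ne_zero hs₁0 (pow_ne_zero _ hdet)
  let w : Fin (r + r) → List ℕ := fun x => Sum.elim (fun i => u (I i)) (fun j => v (J j))
    (finSumFinEquiv.symm x)
  have hml : MatrixLimit N (c + 1) Δ q₀ (dbl (A₀.submatrix I J)).det := by
    refine ⟨r + r, 2 * b', w, dbl (A.submatrix I J), ?_, ?_, ?_, ⟨?_, ?_, ?_⟩, ?_⟩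
    · calc r + r ≤ N ^ c * 2 := by omega
        _ ≤ N ^ c * N := Nat.mul_le_mul_left _ hn2
        _ = N ^ (c + 1) := (pow_succ _ _).symm
    · by_cases hb0 : b' = 0
      · rw [hb0, mul_zero]
        rcases Nat.eq_zero_or_pos q₀ with h | h
        · rw [h, pow_zero]; omega
        · rw [zero_pow (by omega)]; exact Nat.zero_le _
      · have h2 : b' ^ (2 * q₀) ≤ N :=
          (Nat.pow_le_pow_right (Nat.pos_of_ne_zero hb0) (by omega)).trans hb'
        have h3 : ((2 * b') ^ q₀) ^ 2 ≤ N ^ 2 := by
          calc ((2 * b') ^ q₀) ^ 2 = 4 ^ q₀ * b' ^ (2 * q₀) := by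
                rw [mul_pow, mul_pow, ← pow_mul, ← pow_mul]
                congr 1
                · rw [mul_comm q₀ 2, pow_mul]; norm_num
                · congr 1; ring
            _ ≤ N * N := Nat.mul_le_mul hn4 h2
            _ = N ^ 2 := by ring
        exact (Nat.pow_le_pow_iff_left (by norm_num)).1 h3
    · refine ⟨s, m, C₀, hs.trans (Nat.pow_le_pow_right (by omega) (by omega)), ?_, ?_⟩
      · rcases Nat.eq_zero_or_pos m with h | h
        · rw [h]
          rcases Nat.eq_zero_or_pos q₀ with h' | h'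
          · rw [h', pow_zero]; omega
          · rw [zero_pow (by omega)]; exact Nat.zero_le _
        · exact (Nat.pow_le_pow_right h (by omega)).trans hm
      · intro x y
        show _ ∈ Lin (Set.range C₀.g)
        simp only [dbl, Matrix.reindex_apply, Matrix.submatrix_apply]
        rcases finSumFinEquiv.symm x with i | i <;> rcases finSumFinEquiv.symm y with j | j
        · rw [Matrix.fromBlocks_apply₁₁, Matrix.zero_apply, map_zero]
          exact Submodule.zero_mem _
        · rw [Matrix.fromBlocks_apply₁₂]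
          exact hC₀ _ _
        · rw [Matrix.fromBlocks_apply₂₁]
          exact hC₀ _ _
        · rw [Matrix.fromBlocks_apply₂₂, Matrix.zero_apply, map_zero]
          exact Submodule.zero_mem _
    · intro x
      show (Sum.elim (fun i => u (I i)) (fun j => v (J j)) (finSumFinEquiv.symm x)).length ≤ Δ
      rcases finSumFinEquiv.symm x with i | j
      · exact hu _
      · exact hv _
    · intro l
      have h2 : (Finset.univ.filter fun x => w x = l) =
          ((Finset.univ.filter fun i => u (I i) = l).map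
            ⟨fun i => finSumFinEquiv (Sum.inl i), fun i i' h => by simpa using h⟩) ∪
          ((Finset.univ.filter fun j => v (J j) = l).map
            ⟨fun j => finSumFinEquiv (Sum.inr j), fun j j' h => by simpa using h⟩) := by
        ext x
        rw [Finset.mem_union, Finset.mem_map, Finset.mem_map, Finset.mem_filter]
        obtain ⟨z, rfl⟩ := finSumFinEquiv.surjective x
        show (_ ∧ Sum.elim (fun i => u (I i)) (fun j => v (J j))
          (finSumFinEquiv.symm (finSumFinEquiv z)) = l) ↔ _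
        rw [Equiv.symm_apply_apply]
        rcases z with i | j
        · constructor
          · rintro ⟨_, h⟩
            exact Or.inl ⟨i, Finset.mem_filter.2 ⟨Finset.mem_univ _, h⟩, rfl⟩
          · rintro (⟨i', hi', h⟩ | ⟨j', hj', h⟩)
            · have h3 : Sum.inl i' = (Sum.inl i : Fin r ⊕ Fin r) := finSumFinEquiv.injective h
              cases h3
              exact ⟨Finset.mem_univ _, (Finset.mem_filter.1 hi').2⟩
            · have h3 : Sum.inr j' = (Sum.inl i : Fin r ⊕ Fin r) := finSumFinEquiv.injective h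
              cases h3
        · constructor
          · rintro ⟨_, h⟩
            exact Or.inr ⟨j, Finset.mem_filter.2 ⟨Finset.mem_univ _, h⟩, rfl⟩
          · rintro (⟨i', hi', h⟩ | ⟨j', hj', h⟩)
            · have h3 : Sum.inl i' = (Sum.inr j : Fin r ⊕ Fin r) := finSumFinEquiv.injective h
              cases h3
            · have h3 : Sum.inr j' = (Sum.inr j : Fin r ⊕ Fin r) := finSumFinEquiv.injective h
              cases h3
              exact ⟨Finset.mem_univ _, (Finset.mem_filter.1 hj').2⟩
      rw [h2]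
      refine (Finset.card_union_le _ _).trans ?_
      rw [Finset.card_map, Finset.card_map, two_mul]
      refine Nat.add_le_add ?_ ?_
      · rw [← Finset.card_image_of_injective _ hI]
        refine (Finset.card_le_card ?_).trans (hub l)
        intro x hx
        obtain ⟨i, hi, rfl⟩ := Finset.mem_image.1 hx
        exact Finset.mem_filter.2 ⟨Finset.mem_univ _, (Finset.mem_filter.1 hi).2⟩
      · rw [← Finset.card_image_of_injective _ hJ]
        refine (Finset.card_le_card ?_).trans (hvb l)
        intro x hx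
        obtain ⟨i, hi, rfl⟩ := Finset.mem_image.1 hx
        exact Finset.mem_filter.2 ⟨Finset.mem_univ _, (Finset.mem_filter.1 hi).2⟩
    · intro x y hxy
      show Sum.elim (fun i => u (I i)) (fun j => v (J j)) (finSumFinEquiv.symm x) <+:
        Sum.elim (fun i => u (I i)) (fun j => v (J j)) (finSumFinEquiv.symm y) ∨
        Sum.elim (fun i => u (I i)) (fun j => v (J j)) (finSumFinEquiv.symm y) <+:
        Sum.elim (fun i => u (I i)) (fun j => v (J j)) (finSumFinEquiv.symm x)
      simp only [dbl, Matrix.reindex_apply, Matrix.submatrix_apply] at hxy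
      generalize finSumFinEquiv.symm x = x' at hxy ⊢
      generalize finSumFinEquiv.symm y = y' at hxy ⊢
      rcases x' with i | i <;> rcases y' with j | j
      · rw [Matrix.fromBlocks_apply₁₁] at hxy
        exact absurd rfl hxy
      · rw [Matrix.fromBlocks_apply₁₂] at hxy
        exact hst _ _ hxy
      · rw [Matrix.fromBlocks_apply₂₁] at hxy
        exact (hst _ _ hxy).symm
      · rw [Matrix.fromBlocks_apply₂₂] at hxy
        exact absurd rfl hxy
    · refine ⟨(dbl ((Matrix.of A₃).submatrix I J)).det, ?_, ?_⟩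
      · rw [← det_dbl_map, ← Matrix.submatrix_map, hA₃M]
      · rw [← det_dbl_map, ← Matrix.submatrix_map, hA₃M']
  have hhit := H pos hpos F n hnN _ hf0 hml
  have hg : aeval (fun j : Fin n => G F (2 * k + 1) pos j) (A₀.submatrix I J).det ≠ 0 := by
    intro h0
    apply hhit
    rw [hdbl, map_mul, map_pow, h0]
    simp
  have hdeg : (A₀.submatrix I J).det.totalDegree ≤ min r₁ r₂ * d := by
    refine (totalDegree_det_le (d := d) _ fun i j => (hlim _ _).2).trans ?_
    exact Nat.mul_le_mul_right _ (le_min hr1 hr2)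
  obtain ⟨y, hy, hy'⟩ := exists_hit pos hdeg hg
  refine ⟨y, hy, le_antisymm (rank_eval_le M _) ?_⟩
  rw [hrank, hM]
  rw [rank_equiv (eval fun j : Fin n => ((gen q (2 * k + 1) pos y j : ℕ) : F)) P A₀ Q hP hQ]
  apply le_rank_of_minor _ I J
  rw [map_submatrix_det]
  exact hy'

end Pool.Agent.Y531.Hlim
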