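import Pool.Agent.Y531.Hlim.Entries

/-!
# The rank of a polynomial matrix with an elimination forest
-/

set_option autoImplicit false
set_option linter.unusedSectionVars false
set_option maxHeartbeats 2000000
set_option synthInstance.maxHeartbeats 200000

namespace Pool.Agent.Y531.Hlim

open Finset MvPolynomial Matrix Pool.Agent.W942 Pool.Agent.Y531 Pool.Agent.Y531.Mul
  Pool.Agent.Y531.Hit

universe u

/-! ## Ranks and minors -/

section rank
variable {K : Type*} [Field K]

/-- Some rows are a basis of the row space. -/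
theorem exists_rows {ι κ : Type*} [Fintype ι] [Fintype κ] (M : Matrix ι κ K) :
    ∃ (r : ℕ) (I : Fin r → ι), r = M.rank ∧ LinearIndependent K (M.submatrix I id).row := by
  classical
  obtain ⟨f, hf1, _, hf3⟩ := Submodule.exists_fun_fin_finrank_span_eq K (Set.range M.row)
  choose I hI using hf1
  refine ⟨_, I, (M.rank_eq_finrank_span_row).symm, ?_⟩
  have h1 : (M.submatrix I id).row = f := by
    funext i
    rw [← hI i]
    rfl
  rw [h1]
  exact hf3

/-- **A nonzero minor of maximal order.** -/
theorem exists_minor {ι κ : Type*} [Fintype ι] [Fintype κ] (M : Matrix ι κ K) :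
    ∃ (r : ℕ) (I : Fin r → ι) (J : Fin r → κ), r = M.rank ∧ Function.Injective I ∧
      Function.Injective J ∧ (M.submatrix I J).det ≠ 0 := by
  classical
  obtain ⟨r, I, hr, hI⟩ := exists_rows M
  have hrI : (M.submatrix I id).rank = r := by
    rw [hI.rank_matrix, Fintype.card_fin]
  obtain ⟨r', J, hr', hJ⟩ := exists_rows (M.submatrix I id)ᵀ
  rw [Matrix.rank_transpose, hrI] at hr'
  subst hr'
  have h1 : (M.submatrix I J) = ((M.submatrix I id)ᵀ.submatrix J id)ᵀ := rfl
  have hdet : (M.submatrix I J).det ≠ 0 := by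
    rw [h1, Matrix.det_transpose]
    have h2 := Matrix.linearIndependent_rows_iff_isUnit.1 hJ
    exact ((Matrix.isUnit_iff_isUnit_det _).1 h2).ne_zero
  refine ⟨r', I, J, hr, ?_, ?_, hdet⟩
  · intro i i' h
    by_contra hne
    exact hdet (Matrix.det_zero_of_row_eq hne (by
      funext j
      show M (I i) (J j) = M (I i') (J j)
      rw [h]))
  · intro j j' h
    by_contra hne
    exact hdet (Matrix.det_zero_of_column_eq hne (by
      intro i
      show M (I i) (J j) = M (I i) (J j')
      rw [h]))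

/-- A nonzero minor bounds the rank. -/
theorem le_rank_of_minor {ι κ : Type*} [Fintype ι] [Fintype κ] (M : Matrix ι κ K) {r : ℕ}
    (I : Fin r → ι) (J : Fin r → κ) (h : (M.submatrix I J).det ≠ 0) : r ≤ M.rank := by
  have h1 : (M.submatrix I J).rank = r := by
    rw [Matrix.rank_of_isUnit _ ((Matrix.isUnit_iff_isUnit_det _).2 h.isUnit), Fintype.card_fin]
  rw [← h1]
  exact Matrix.rank_submatrix_le M I J

variable {F : Type*} [Field F] {σ : Type*}

/-- The rank over the field of rational functions. -/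
noncomputable def prank {ι κ : Type*} [Fintype ι] [Fintype κ]
    (M : Matrix ι κ (MvPolynomial σ F)) : ℕ :=
  (M.map (algebraMap (MvPolynomial σ F) (FractionRing (MvPolynomial σ F)))).rank

theorem map_submatrix_det {R S : Type*} [CommRing R] [CommRing S] (φ : R →+* S)
    {ι κ : Type*} (M : Matrix ι κ R) {r : ℕ} (I : Fin r → ι) (J : Fin r → κ) :
    ((M.map φ).submatrix I J).det = φ (M.submatrix I J).det := by
  rw [RingHom.map_det]
  rfl

theorem exists_minor_poly {ι κ : Type*} [Fintype ι] [Fintype κ]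
    (M : Matrix ι κ (MvPolynomial σ F)) :
    ∃ (r : ℕ) (I : Fin r → ι) (J : Fin r → κ), r = prank M ∧ Function.Injective I ∧
      Function.Injective J ∧ (M.submatrix I J).det ≠ 0 := by
  obtain ⟨r, I, J, h1, h2, h3, h4⟩ := exists_minor
    (M.map (algebraMap (MvPolynomial σ F) (FractionRing (MvPolynomial σ F))))
  refine ⟨r, I, J, h1, h2, h3, fun h0 => h4 ?_⟩
  rw [map_submatrix_det, h0, map_zero]

/-- The rank at a point is at most the rank. -/
theorem rank_eval_le {ι κ : Type*} [Fintype ι] [Fintype κ]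
    (M : Matrix ι κ (MvPolynomial σ F)) (x : σ → F) : (M.map (eval x)).rank ≤ prank M := by
  obtain ⟨r, I, J, h1, _, _, h4⟩ := exists_minor (M.map (eval x))
  rw [← h1]
  apply le_rank_of_minor _ I J
  rw [map_submatrix_det] at h4 ⊢
  intro h0
  apply h4
  have h5 : (M.submatrix I J).det = 0 :=
    IsFractionRing.injective (MvPolynomial σ F) (FractionRing (MvPolynomial σ F)) (by
      rw [map_zero]; exact h0)
  rw [h5, map_zero]

theorem map_mul_mul {R S : Type*} [CommRing R] [CommRing S] (φ : R →+* S)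
    {ι κ : Type*} [Fintype ι] [Fintype κ] (P : Matrix ι ι R) (M : Matrix ι κ R)
    (Q : Matrix κ κ R) : (P * M * Q).map φ = P.map φ * M.map φ * Q.map φ := by
  rw [Matrix.map_mul, Matrix.map_mul]

/-- The rank of equivalent matrices. -/
theorem rank_equiv {R K' : Type*} [CommRing R] [Field K'] (φ : R →+* K') {ι κ : Type*} [Fintype ι]
    [Fintype κ] [DecidableEq ι] [DecidableEq κ] (P : Matrix ι ι R) (M : Matrix ι κ R)
    (Q : Matrix κ κ R) (hP : IsUnit P.det) (hQ : IsUnit Q.det) :
    ((P * M * Q).map φ).rank = (M.map φ).rank := by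
  have h1 : IsUnit (P.map φ).det := by
    have := hP.map φ
    rwa [RingHom.map_det] at this
  have h2 : IsUnit (Q.map φ).det := by
    have := hQ.map φ
    rwa [RingHom.map_det] at this
  rw [map_mul_mul, Matrix.rank_mul_eq_left_of_isUnit_det _ _ h2,
    Matrix.rank_mul_eq_right_of_isUnit_det _ _ h1]

/-- The degree of a minor. -/
theorem totalDegree_det_le {r d : ℕ} (M : Matrix (Fin r) (Fin r) (MvPolynomial σ F))
    (h : ∀ i j, (M i j).totalDegree ≤ d) : M.det.totalDegree ≤ r * d := by
  classical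
  rw [Matrix.det_apply]
  refine (totalDegree_finsetSum _ _).trans (Finset.sup_le fun p _ => ?_)
  have h1 : (Equiv.Perm.sign p • ∏ i, M (p i) i).totalDegree ≤ (∏ i, M (p i) i).totalDegree := by
    rcases Int.units_eq_one_or (Equiv.Perm.sign p) with h | h
    · rw [h, one_smul]
    · rw [h, Units.neg_smul, one_smul, totalDegree_neg]
  refine h1.trans ((totalDegree_finsetProd _ _).trans ?_)
  calc ∑ i, (M (p i) i).totalDegree ≤ ∑ _i : Fin r, d := Finset.sum_le_sum fun i _ => h _ _
    _ = r * d := by rw [Finset.sum_const, Finset.card_univ, Fintype.card_fin, smul_eq_mul]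

end rank

/-! ## The doubled minor -/

section double
variable {R : Type*} [CommRing R]

/-- The matrix with the blocks `0`, `B`, `Bᵀ`, `0`. -/
def dbl {r : ℕ} (B : Matrix (Fin r) (Fin r) R) : Matrix (Fin (r + r)) (Fin (r + r)) R :=
  Matrix.reindex finSumFinEquiv finSumFinEquiv (Matrix.fromBlocks 0 B Bᵀ 0)

theorem dbl_map {S : Type*} [CommRing S] (φ : R →+* S) {r : ℕ} (B : Matrix (Fin r) (Fin r) R) :
    (dbl B).map φ = dbl (B.map φ) := by
  ext i j
  simp only [dbl, Matrix.reindex_apply, Matrix.map_apply, Matrix.submatrix_apply]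
  rcases finSumFinEquiv.symm i with i | i <;> rcases finSumFinEquiv.symm j with j | j <;> simp

theorem det_dbl_map {S : Type*} [CommRing S] (φ : R →+* S) {r : ℕ}
    (B : Matrix (Fin r) (Fin r) R) : (dbl (B.map φ)).det = φ (dbl B).det := by
  rw [← dbl_map, RingHom.map_det]
  rfl

theorem det_dbl {r : ℕ} (B : Matrix (Fin r) (Fin r) R) :
    ∃ s : R, s * s = 1 ∧ (dbl B).det = s * B.det ^ 2 := by
  classical
  set X : Matrix (Fin r ⊕ Fin r) (Fin r ⊕ Fin r) R := Matrix.fromBlocks 0 1 1 0 with hX
  have h1 : X * X = 1 := by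
    rw [hX, Matrix.fromBlocks_multiply]
    simp [Matrix.fromBlocks_one]
  have h2 : X.det * X.det = 1 := by rw [← Matrix.det_mul, h1, Matrix.det_one]
  refine ⟨X.det, h2, ?_⟩
  have h3 : (dbl B).det = (Matrix.fromBlocks 0 B Bᵀ 0).det := by
    rw [dbl, Matrix.det_reindex_self]
  have h4 : Matrix.fromBlocks 0 B Bᵀ 0 * X = Matrix.fromBlocks B 0 0 Bᵀ := by
    rw [hX, Matrix.fromBlocks_multiply]
    simp
  have h5 : (Matrix.fromBlocks 0 B Bᵀ 0).det * X.det = B.det ^ 2 := by
    rw [← Matrix.det_mul, h4, Matrix.det_fromBlocks_zero₂₁, Matrix.det_transpose, pow_two]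
  rw [h3, ← h5, mul_comm, mul_assoc, h2, mul_one]

end double

end Pool.Agent.Y531.Hlim
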