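import Pool.Agent.Y531.Hlim.RankHit

/-!
# The closure of the matrices with elimination forests under matrix operations
-/

set_option autoImplicit false
set_option linter.unusedSectionVars false
set_option maxHeartbeats 2000000
set_option synthInstance.maxHeartbeats 200000

namespace Pool.Agent.Y531.Hlim

open Finset MvPolynomial Matrix Pool.Agent.W942 Pool.Agent.Y531 Pool.Agent.Y531.Mul
  Pool.Agent.Y531.Hit
open scoped Kronecker

universe u

section defs
variable {σ : Type} {F : Type u} [Field F] {ι κ : Type} [Fintype ι] [DecidableEq ι] [Fintype κ]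
  [DecidableEq κ]

/-- The matrix is singular, or its determinant divides a product of nonzero polynomials which are
limits of determinants of matrices with elimination forests (`MatrixLimit`). -/
def Tame (n c Δ q : ℕ) (M : Matrix ι ι (MvPolynomial σ F)) : Prop :=
  M.det = 0 ∨ ∃ S : Multiset (MvPolynomial σ F),
    (∀ f ∈ S, f ≠ 0 ∧ MatrixLimit n c Δ q f) ∧ M.det ∣ S.prod

variable {n c Δ q : ℕ}

theorem Tame.of_dvd {M : Matrix ι ι (MvPolynomial σ F)} {M' : Matrix κ κ (MvPolynomial σ F)}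
    (hM : Tame n c Δ q M) (h0 : M.det ≠ 0) (h : M'.det ∣ M.det) : Tame n c Δ q M' := by
  rcases hM with hM | ⟨S, hS, hd⟩
  · exact absurd hM h0
  · exact Or.inr ⟨S, hS, h.trans hd⟩

theorem Tame.mul {A B : Matrix ι ι (MvPolynomial σ F)} (hA : Tame n c Δ q A)
    (hB : Tame n c Δ q B) : Tame n c Δ q (A * B) := by
  rcases hA with hA | ⟨S, hS, hd⟩
  · exact Or.inl (by rw [Matrix.det_mul, hA, zero_mul])
  rcases hB with hB | ⟨S', hS', hd'⟩
  · exact Or.inl (by rw [Matrix.det_mul, hB, mul_zero])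
  · refine Or.inr ⟨S + S', fun f hf => ?_, ?_⟩
    · rcases Multiset.mem_add.1 hf with h | h
      · exact hS f h
      · exact hS' f h
    · rw [Matrix.det_mul, Multiset.prod_add]
      exact mul_dvd_mul hd hd'

theorem Tame.pow_det {M : Matrix ι ι (MvPolynomial σ F)} (hM : Tame n c Δ q M) (k : ℕ) :
    M.det = 0 ∨ ∃ S : Multiset (MvPolynomial σ F),
      (∀ f ∈ S, f ≠ 0 ∧ MatrixLimit n c Δ q f) ∧ M.det ^ k ∣ S.prod := by
  rcases hM with hM | ⟨S, hS, hd⟩
  · exact Or.inl hM
  · refine Or.inr ⟨k • S, fun f hf => hS f (Multiset.mem_of_mem_nsmul hf), ?_⟩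
    rw [Multiset.prod_nsmul]
    exact pow_dvd_pow_of_dvd hd k

/-- Factors of nonsingular products. -/
theorem Tame.factors {A B : Matrix ι ι (MvPolynomial σ F)} (h : Tame n c Δ q (A * B))
    (h0 : (A * B).det ≠ 0) : Tame n c Δ q A ∧ Tame n c Δ q B :=
  ⟨h.of_dvd h0 (by rw [Matrix.det_mul]; exact dvd_mul_right _ _),
    h.of_dvd h0 (by rw [Matrix.det_mul]; exact dvd_mul_left _ _)⟩

theorem tame_unit {M : Matrix ι ι (MvPolynomial σ F)} (h : IsUnit M.det) : Tame n c Δ q M :=
  Or.inr ⟨0, by simp, by rw [Multiset.prod_zero]; exact h.dvd⟩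

theorem Tame.adjugate {A : Matrix ι ι (MvPolynomial σ F)} (hA : Tame n c Δ q A) :
    Tame n c Δ q A.adjugate := by
  rcases hA.pow_det (Fintype.card ι - 1) with h | ⟨S, hS, hd⟩
  · by_cases hc : Fintype.card ι - 1 = 0
    · refine tame_unit ?_
      rw [Matrix.det_adjugate, hc, pow_zero]
      exact isUnit_one
    · exact Or.inl (by rw [Matrix.det_adjugate, h, zero_pow hc])
  · exact Or.inr ⟨S, hS, by rw [Matrix.det_adjugate]; exact hd⟩

theorem Tame.kronecker {A : Matrix ι ι (MvPolynomial σ F)} {B : Matrix κ κ (MvPolynomial σ F)}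
    (hA : Tame n c Δ q A) (hB : Tame n c Δ q B) : Tame n c Δ q (A ⊗ₖ B) := by
  rcases hA.pow_det (Fintype.card κ) with h | ⟨S, hS, hd⟩
  · by_cases hc : Fintype.card κ = 0
    · have : IsEmpty κ := Fintype.card_eq_zero_iff.1 hc
      refine tame_unit ?_
      rw [Matrix.det_isEmpty]
      exact isUnit_one
    · exact Or.inl (by rw [Matrix.det_kronecker, h, zero_pow hc, zero_mul])
  rcases hB.pow_det (Fintype.card ι) with h | ⟨S', hS', hd'⟩
  · by_cases hc : Fintype.card ι = 0
    · have : IsEmpty ι := Fintype.card_eq_zero_iff.1 hc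
      refine tame_unit ?_
      rw [Matrix.det_isEmpty]
      exact isUnit_one
    · exact Or.inl (by rw [Matrix.det_kronecker, h, zero_pow hc, mul_zero])
  · refine Or.inr ⟨S + S', fun f hf => ?_, ?_⟩
    · rcases Multiset.mem_add.1 hf with h | h
      · exact hS f h
      · exact hS' f h
    · rw [Matrix.det_kronecker, Multiset.prod_add]
      exact mul_dvd_mul hd hd'

theorem Tame.blocks {A : Matrix ι ι (MvPolynomial σ F)} {B : Matrix κ κ (MvPolynomial σ F)}
    (hA : Tame n c Δ q A) (hB : Tame n c Δ q B) (X : Matrix ι κ (MvPolynomial σ F)) :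
    Tame n c Δ q (Matrix.fromBlocks A X 0 B) := by
  rcases hA with hA | ⟨S, hS, hd⟩
  · exact Or.inl (by rw [Matrix.det_fromBlocks_zero₂₁, hA, zero_mul])
  rcases hB with hB | ⟨S', hS', hd'⟩
  · exact Or.inl (by rw [Matrix.det_fromBlocks_zero₂₁, hB, mul_zero])
  · refine Or.inr ⟨S + S', fun f hf => ?_, ?_⟩
    · rcases Multiset.mem_add.1 hf with h | h
      · exact hS f h
      · exact hS' f h
    · rw [Matrix.det_fromBlocks_zero₂₁, Multiset.prod_add]
      exact mul_dvd_mul hd hd'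

end defs

/-! ## Sparse matrices -/

section sparse
variable {F : Type u} [Field F] {n : ℕ}

/-- A constant family tends to its value. -/
theorem tendsTo_const {σ : Type} (f : MvPolynomial σ F) :
    TendsTo (MvPolynomial.map (HahnSeries.C : F →+* LaurentSeries F) f) f := by
  refine ⟨MvPolynomial.map PowerSeries.C f, ?_, ?_⟩
  · rw [MvPolynomial.map_map]
    have h1 : (HahnSeries.ofPowerSeries ℤ F).comp (PowerSeries.C) = HahnSeries.C :=
      RingHom.ext fun r => ofPS_C r
    rw [h1]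
  · rw [MvPolynomial.map_map]
    have h1 : (PowerSeries.constantCoeff (R := F)).comp (PowerSeries.C) = RingHom.id F :=
      RingHom.ext fun r => PowerSeries.constantCoeff_C r
    rw [h1, MvPolynomial.map_id]

theorem inc_monomial (μ : Fin n →₀ ℕ) (a : LaurentSeries F) :
    algebraMap (MvPolynomial (Fin n) (LaurentSeries F)) (AF (Fin n) (LaurentSeries F))
      (monomial μ a) = a • ∏ j : Fin n, algebraMap (MvPolynomial (Fin n) (LaurentSeries F))
        (AF (Fin n) (LaurentSeries F)) (X j) ^ μ j := by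
  have h1 : (monomial μ a : MvPolynomial (Fin n) (LaurentSeries F)) =
      C a * ∏ j : Fin n, X j ^ μ j := by
    rw [MvPolynomial.monomial_eq, Finsupp.prod_fintype _ _ fun j => pow_zero _]
  rw [h1, map_mul, map_prod, Algebra.smul_def,
    IsScalarTower.algebraMap_apply (LaurentSeries F) (MvPolynomial (Fin n) (LaurentSeries F))
      (AF (Fin n) (LaurentSeries F))]
  congr 1
  exact Finset.prod_congr rfl fun j _ => map_pow _ _ _

/-- Matrices with few monomials. -/
theorem entriesIn_sparse {I J : Type*} {N c Δ q : ℕ} (hc : c ≠ 0) (hN : 1 ≤ N) (hn : n ≤ N)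
    (A : Matrix I J (MvPolynomial (Fin n) F)) (T : Finset (Fin n →₀ ℕ)) (hT : T.card ≤ N ^ c)
    (hA : ∀ i j, (A i j).support ⊆ T) :
    EntriesIn N c Δ q (A.map (MvPolynomial.map (HahnSeries.C : F →+* LaurentSeries F))) := by
  classical
  set x : Fin n → AF (Fin n) (LaurentSeries F) := fun j =>
    algebraMap (MvPolynomial (Fin n) (LaurentSeries F)) (AF (Fin n) (LaurentSeries F)) (X j)
    with hx
  obtain ⟨C', hC'⟩ := exists_circuit (s := N ^ c) (Δ := Δ) (m := 0)
    (J := {μ // μ ∈ T}) (fun μ => ∏ j : Fin n, x j ^ μ.1 j) (fun _ => 0) (fun _ => Nat.zero_le _)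
    (fun μ => Or.inl ⟨n, 1, x, fun j => μ.1 j, fun _ => 0,
      hn.trans (Nat.le_self_pow hc N), one_ne_zero, fun j => X_mem_Lin j, by simp, by simp⟩)
    (by rw [Fintype.card_coe]; exact hT)
  refine ⟨N ^ c, 0, C', le_rfl, ?_, fun i j => hC' _ ?_⟩
  · rcases Nat.eq_zero_or_pos q with h | h
    · rw [h, pow_zero]; exact hN
    · rw [zero_pow (by omega)]; exact Nat.zero_le _
  · rw [Matrix.map_apply, MvPolynomial.as_sum (A i j), map_sum, map_sum]
    refine Submodule.sum_mem _ fun μ hμ => ?_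
    rw [MvPolynomial.map_monomial, inc_monomial]
    exact Submodule.smul_mem _ _ (mem_Lin ⟨⟨μ, hA i j hμ⟩, rfl⟩)

/-- **Sparse matrices with elimination forests are tame.** -/
theorem tame_sparse {N c Δ q : ℕ} (hc : c ≠ 0) (hN : 1 ≤ N) (hn : n ≤ N) {r b : ℕ}
    (hr : r ≤ N ^ c) (hb : b ^ q ≤ N) (w : Fin r → List ℕ)
    (A : Matrix (Fin r) (Fin r) (MvPolynomial (Fin n) F)) (T : Finset (Fin n →₀ ℕ))
    (hT : T.card ≤ N ^ c) (hA : ∀ i j, (A i j).support ⊆ T) (hw : ElimForest Δ b w A) :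
    Tame N c Δ q A := by
  classical
  by_cases h0 : A.det = 0
  · exact Or.inl h0
  refine Or.inr ⟨{A.det}, fun f hf => ?_, by rw [Multiset.prod_singleton]⟩
  rw [Multiset.mem_singleton] at hf
  subst hf
  refine ⟨h0, r, b, w, A.map (MvPolynomial.map (HahnSeries.C : F →+* LaurentSeries F)), hr, hb,
    entriesIn_sparse hc hN hn A T hT hA, ⟨hw.1, hw.2.1, fun i j hij => hw.2.2 i j fun h => ?_⟩, ?_⟩
  · apply hij
    rw [Matrix.map_apply, h, map_zero]
  · have h1 : (A.map (MvPolynomial.map (HahnSeries.C : F →+* LaurentSeries F))).det =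
        MvPolynomial.map (HahnSeries.C : F →+* LaurentSeries F) A.det := by
      rw [RingHom.map_det]
      rfl
    rw [h1]
    exact tendsTo_const _

end sparse

/-- **Singularity of tame matrices.** -/
theorem tame_hits (c Δ k : ℕ) (hk : k ≠ 0) : ∃ a b q₀ N₀ : ℕ, 0 < a ∧ 0 < b ∧ 0 < N₀ ∧
    ∀ N, N₀ ≤ N → ∀ q : ℕ, q.Prime → Fintype.card (Cell a b (blockLen a b k N)) ≤ q →
    q ≤ 2 * Fintype.card (Cell a b (blockLen a b k N)) →
    (Fintype.card (Cell a b (blockLen a b k N)) * q) ^ k ≤ N ∧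
    ∀ pos : Cell a b (blockLen a b k N) → ZMod q, Function.Injective pos →
    ∀ (F : Type u) [Field F] [CharZero F] (n : ℕ), n ≤ N →
    ∀ (ι : Type) [Fintype ι] [DecidableEq ι] (M : Matrix ι ι (MvPolynomial (Fin n) F)),
      Tame N c Δ q₀ M → ∀ D, M.det.totalDegree ≤ D →
      (M.det = 0 ↔ ∀ y : Cell a b (blockLen a b k N) × ZMod q → ℕ, (∀ x, y x ≤ D) →
        (M.map (eval fun j : Fin n => ((gen q (2 * k + 1) pos y j : ℕ) : F))).det = 0) := by
  classical
  obtain ⟨a, b, q₀, N₀, ha, hb, H⟩ := matrix_hits.{u} c Δ k hk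
  refine ⟨a, b, q₀, N₀ + 1, ha, hb, Nat.succ_pos _, ?_⟩
  intro N hN q hq hq1 hq2
  obtain ⟨h1, H⟩ := H N (by omega) q hq hq1 hq2
  refine ⟨h1, ?_⟩
  intro pos hpos F _ _ n hnN ι _ _ M hM D hD
  have : NeZero q := ⟨hq.ne_zero⟩
  have hev : ∀ x : Fin n → F, (M.map (eval x)).det = eval x M.det := fun x => by
    rw [RingHom.map_det]; rfl
  constructor
  · intro h0 y _
    rw [hev, h0, map_zero]
  · intro hy
    by_contra h0
    rcases hM with hM | ⟨S, hS, hd⟩
    · exact h0 hM
    have hg : aeval (fun j : Fin n => G F (2 * k + 1) pos j) M.det ≠ 0 := by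
      intro h2
      obtain ⟨g', hg'⟩ := hd
      have h3 : aeval (fun j : Fin n => G F (2 * k + 1) pos j) S.prod = 0 := by
        rw [hg', map_mul, h2, zero_mul]
      rw [map_multiset_prod, Multiset.prod_eq_zero_iff, Multiset.mem_map] at h3
      obtain ⟨f, hf, hf'⟩ := h3
      exact H pos hpos F n hnN f (hS f hf).1 (hS f hf).2 hf'
    obtain ⟨y, hy1, hy2⟩ := exists_hit pos hD hg
    exact hy2 ((hev _).symm.trans (hy y hy1))

end Pool.Agent.Y531.Hlim
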